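import Mathlib
import Pool.Agent.Y822.G.Out
import Pool.Agent.H373R2.T7.Cnt
import Pool.Agent.Helper256.KM.Mertens

/-! Uniform prime tuples: shifts, local densities. -/

set_option autoImplicit false

namespace Pool.Agent.V1137.UK

open Finset Filter Pool.Agent.Y822.G

/-- divisibility of `n + a` -/
def Rs (a p n : ℕ) : Prop := p ∣ n + a

lemma per_Rs (a : ℕ) : Per (Rs a) := by
  intro p n
  unfold Rs
  have h : n % p + a ≡ n + a [MOD p] := Nat.ModEq.add_right a (Nat.mod_modEq n p)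
  exact (Nat.ModEq.dvd_iff h dvd_rfl)

lemma rho_Rs (a p : ℕ) (hp : p.Prime) : rho (Rs a) p ≤ 1 := by
  classical
  unfold rho
  rw [card_le_one]
  intro r hr s hs
  rw [mem_filter, mem_range] at hr hs
  have h1 : (r + a) ≡ (s + a) [MOD p] :=
    ((Nat.modEq_zero_iff_dvd).2 hr.2).trans ((Nat.modEq_zero_iff_dvd).2 hs.2).symm
  have h2 : r ≡ s [MOD p] := Nat.ModEq.add_right_cancel' a h1
  exact Nat.ModEq.eq_of_lt_of_lt h2 hr.1 hs.1

lemma fam {N : ℕ} (A : Finset ℕ) (hA : ∀ a ∈ A, a ≤ N) (hN : 2 ≤ N) : Fam 1 2 N Rs A := by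
  refine ⟨fun a _ => per_Rs a, fun a _ p hp => rho_Rs a p hp, fun a ha n hn => Or.inr ?_, fun a ha b hb hab => ?_⟩
  · rw [mem_Icc] at hn
    have h1 := hA a ha
    refine ⟨n + a, by omega, ?_, fun p _ h => h⟩
    nlinarith
  · have h1 := hA a ha
    have h2 := hA b hb
    rcases Nat.lt_or_ge a b with h | h
    · refine ⟨b - a, by omega, ?_, fun p hp n h3 h4 => ?_⟩
      · nlinarith [Nat.sub_le b a]
      · unfold Rs at h3 h4
        have := Nat.dvd_sub h4 h3
        have e : n + b - (n + a) = b - a := by omega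
        rwa [e] at this
    · refine ⟨a - b, by omega, ?_, fun p hp n h3 h4 => ?_⟩
      · nlinarith [Nat.sub_le a b]
      · unfold Rs at h3 h4
        have := Nat.dvd_sub h3 h4
        have e : n + a - (n + b) = a - b := by omega
        rwa [e] at this

/-- the number of the classes hit by `-T` modulo `p` -/
lemma rho_ge (T : Finset ℕ) {p : ℕ} (hp : p.Prime) [DecidablePred fun a => ∃ b ∈ T, b < a ∧ p ∣ a - b] :
    T.card ≤ rho (QR Rs T) p + (T.filter (fun a => ∃ b ∈ T, b < a ∧ p ∣ a - b)).card := by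
  classical
  have h0 := card_filter_add_card_filter_not (s := T) (fun a => ∃ b ∈ T, b < a ∧ p ∣ a - b)
  have h1 : (T.filter (fun a => ¬ ∃ b ∈ T, b < a ∧ p ∣ a - b)).card ≤ rho (QR Rs T) p := by
    unfold rho
    have hp0 := hp.pos
    refine card_le_card_of_injOn (fun a => (p - a % p) % p) ?_ ?_
    · intro a ha
      rw [mem_coe, mem_filter] at ha
      rw [mem_coe, mem_filter, mem_range]
      refine ⟨Nat.mod_lt _ hp0, a, ha.1, ?_⟩
      unfold Rs
      have h2 : (p - a % p) % p + a ≡ (p - a % p) + a % p [MOD p] :=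
        Nat.ModEq.add (Nat.mod_modEq _ _) (Nat.mod_modEq a p).symm
      have h3 : (p - a % p) + a % p = p := Nat.sub_add_cancel (Nat.mod_lt a hp0).le
      rw [h3] at h2
      exact (Nat.modEq_zero_iff_dvd).1 (h2.trans ((Nat.modEq_zero_iff_dvd).2 dvd_rfl))
    · intro a ha b hb hab
      rw [mem_coe, mem_filter] at ha hb
      simp only at hab
      have ha2 := Nat.mod_lt a hp0
      have hb2 := Nat.mod_lt b hp0
      have hmod : a % p = b % p := by
        rcases Nat.eq_zero_or_pos (a % p) with h | h <;> rcases Nat.eq_zero_or_pos (b % p) with h' | h'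
        · omega
        · rw [h, Nat.sub_zero, Nat.mod_self, Nat.mod_eq_of_lt (by omega : p - b % p < p)] at hab
          omega
        · rw [h', Nat.sub_zero, Nat.mod_self, Nat.mod_eq_of_lt (by omega : p - a % p < p)] at hab
          omega
        · rw [Nat.mod_eq_of_lt (by omega : p - b % p < p), Nat.mod_eq_of_lt (by omega : p - a % p < p)] at hab
          omega
      by_contra hne
      rcases Nat.lt_or_ge a b with h | h
      · exact hb.2 ⟨a, ha.1, h, (Nat.modEq_iff_dvd' h.le).1 hmod⟩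
      · exact ha.2 ⟨b, hb.1, by omega, (Nat.modEq_iff_dvd' h).1 hmod.symm⟩
  omega

/-- few large primes divide a small number -/
lemma sum_div_le {P : Finset ℕ} {Y d x : ℕ} (hP : ∀ p ∈ P, p.Prime ∧ Y < p) (hY : 1 ≤ Y) (hd : 1 ≤ d) (hdx : d ≤ x)
    [DecidablePred fun p => p ∣ d] :
    ∑ p ∈ P.filter (fun p => p ∣ d), (1 : ℝ) / p ≤ 2 * Real.log x / Y := by
  have hY0 : (0 : ℝ) < Y := by exact_mod_cast hY
  have h1 : ∏ p ∈ P.filter (fun p => p ∣ d), p ∣ d :=
    Finset.prod_primes_dvd _ (fun p hp => (hP p (mem_filter.1 hp).1).1.prime) fun p hp => (mem_filter.1 hp).2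
  have h2 : 2 ^ (P.filter (fun p => p ∣ d)).card ≤ x := by
    calc 2 ^ (P.filter (fun p => p ∣ d)).card = ∏ _p ∈ P.filter (fun p => p ∣ d), 2 := by rw [prod_const]
      _ ≤ ∏ p ∈ P.filter (fun p => p ∣ d), p :=
        prod_le_prod (fun _ _ => Nat.zero_le _) fun p hp => (hP p (mem_filter.1 hp).1).1.two_le
      _ ≤ d := Nat.le_of_dvd hd h1
      _ ≤ x := hdx
  have h3 : ((P.filter (fun p => p ∣ d)).card : ℝ) ≤ 2 * Real.log x := by
    have h4 : ((2 ^ (P.filter (fun p => p ∣ d)).card : ℕ) : ℝ) ≤ x := by exact_mod_cast h2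
    have h5 := Real.log_le_log (by positivity) h4
    push_cast at h5
    rw [Real.log_pow] at h5
    have h6 := Real.log_two_gt_d9
    have h7 : (0 : ℝ) ≤ (P.filter (fun p => p ∣ d)).card := Nat.cast_nonneg _
    nlinarith
  calc ∑ p ∈ P.filter (fun p => p ∣ d), (1 : ℝ) / p ≤ ∑ _p ∈ P.filter (fun p => p ∣ d), (1 : ℝ) / Y := by
        apply sum_le_sum
        intro p hp
        apply one_div_le_one_div_of_le hY0
        exact_mod_cast (hP p (mem_filter.1 hp).1).2.le
    _ = (P.filter (fun p => p ∣ d)).card / Y := by rw [sum_const, nsmul_eq_mul]; ring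
    _ ≤ _ := div_le_div_of_nonneg_right h3 hY0.le

/-- the collisions modulo large primes -/
lemma coll (T : Finset ℕ) {P : Finset ℕ} {Y x : ℕ} (hP : ∀ p ∈ P, p.Prime ∧ Y < p) (hY : 1 ≤ Y)
    (hT : ∀ a ∈ T, a ≤ x) :
    ∑ p ∈ P, ((T.card : ℝ) - rho (QR Rs T) p) / p ≤ (T.card : ℝ) ^ 2 * (2 * Real.log x / Y) := by
  classical
  have h1 : ∀ p ∈ P, ((T.card : ℝ) - rho (QR Rs T) p) / p ≤
      ∑ a ∈ T, ∑ b ∈ T, if b < a ∧ p ∣ a - b then (1 : ℝ) / p else 0 := by
    intro p hp
    have hpp := (hP p hp).1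
    have h2 : (T.card : ℝ) ≤ rho (QR Rs T) p + (T.filter (fun a => ∃ b ∈ T, b < a ∧ p ∣ a - b)).card := by
      exact_mod_cast rho_ge T hpp
    calc ((T.card : ℝ) - rho (QR Rs T) p) / p
        ≤ (T.filter (fun a => ∃ b ∈ T, b < a ∧ p ∣ a - b)).card / p := by
          apply div_le_div_of_nonneg_right _ (Nat.cast_nonneg _)
          linarith
      _ = ∑ a ∈ T, (if ∃ b ∈ T, b < a ∧ p ∣ a - b then (1 : ℝ) / p else 0) := by
          rw [← sum_filter, sum_const, nsmul_eq_mul]; ring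
      _ ≤ _ := by
          apply sum_le_sum
          intro a ha
          split_ifs with h
          · obtain ⟨b, hb, hb2⟩ := h
            calc (1 : ℝ) / p = if b < a ∧ p ∣ a - b then (1 : ℝ) / p else 0 := by rw [if_pos hb2]
              _ ≤ _ := single_le_sum (f := fun b => if b < a ∧ p ∣ a - b then (1 : ℝ) / p else 0) (fun c _ => by
                  split_ifs <;> positivity) hb
          · exact sum_nonneg fun c _ => by split_ifs <;> positivity
  have h3 : ∀ a ∈ T, ∀ b ∈ T, ∑ p ∈ P, (if b < a ∧ p ∣ a - b then (1 : ℝ) / p else 0) ≤ 2 * Real.log x / Y := by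
    intro a ha b hb
    have hlog : 0 ≤ 2 * Real.log x / Y := by
      have : 0 ≤ Real.log (x : ℝ) := Real.log_natCast_nonneg x
      positivity
    by_cases hab : b < a
    · have := sum_div_le (P := P) (d := a - b) (x := x) hP hY (by omega) ((Nat.sub_le _ _).trans (hT a ha))
      refine le_trans (le_of_eq ?_) this
      rw [sum_filter]
      apply sum_congr rfl
      intro p _
      by_cases h : p ∣ a - b
      · rw [if_pos ⟨hab, h⟩, if_pos h]
      · rw [if_neg (fun h' => h h'.2), if_neg h]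
    · rw [sum_eq_zero]
      · exact hlog
      · intro p _
        rw [if_neg (fun h' => hab h'.1)]
  calc ∑ p ∈ P, ((T.card : ℝ) - rho (QR Rs T) p) / p
      ≤ ∑ p ∈ P, ∑ a ∈ T, ∑ b ∈ T, (if b < a ∧ p ∣ a - b then (1 : ℝ) / p else 0) := sum_le_sum h1
    _ = ∑ a ∈ T, ∑ b ∈ T, ∑ p ∈ P, (if b < a ∧ p ∣ a - b then (1 : ℝ) / p else 0) := by
        rw [sum_comm]
        apply sum_congr rfl
        intro a _
        rw [sum_comm]
    _ ≤ ∑ a ∈ T, ∑ b ∈ T, 2 * Real.log x / Y := sum_le_sum fun a ha => sum_le_sum fun b hb => h3 a ha b hb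
    _ = _ := by rw [sum_const, sum_const, nsmul_eq_mul, nsmul_eq_mul]; ring

end Pool.Agent.V1137.UK
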