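import Pool.Agent.V1137.UK.A

/-! Uniform prime tuples: an upper bound for the local densities of all sets of shifts. -/

set_option autoImplicit false

namespace Pool.Agent.V1137.UK

open Finset Filter Pool.Agent.Y822.G

/-- the sum of the reciprocals of the primes -/
noncomputable def RR (N : ℕ) : ℝ := ∑ p ∈ ps N, (1 : ℝ) / p

lemma mert : ∃ C : ℝ, 0 ≤ C ∧ ∀ N : ℕ, 3 ≤ N → |RR N - Real.log (Real.log N)| ≤ C := by
  obtain ⟨C₀, hC₀⟩ := Pool.Agent.Helper256.KM.mertens_inv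
  exact ⟨C₀, (abs_nonneg _).trans (hC₀ 3 le_rfl), fun N hN => hC₀ N hN⟩

lemma sum_pb {y z : ℕ} (h : y ≤ z) (f : ℕ → ℝ) : ∑ p ∈ pb y z, f p = ∑ p ∈ ps z, f p - ∑ p ∈ ps y, f p := by
  rw [ps_union h, sum_union]
  · ring
  · rw [disjoint_left]
    intro p hp hp'
    rw [mem_ps] at hp
    rw [mem_pb] at hp'
    omega

/-- the limit between the small and the large primes -/
noncomputable def YY (x : ℕ) : ℕ := ⌈Real.log x ^ 2⌉₊

theorem VV_bound : ∃ C : ℝ, 0 < C ∧ ∀ᶠ x : ℕ in atTop, ∀ T : Finset ℕ, (∀ a ∈ T, a ≤ x) →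
    (T.card : ℝ) ≤ Real.log x → ∀ w z : ℕ, w ≤ YY x → YY x ≤ z →
      VV (QR Rs T) z ≤ VV (QR Rs T) w * (C * Real.log (Real.log x) / Real.log z) ^ T.card := by
  classical
  obtain ⟨C₀, hC₀, hM⟩ := mert
  refine ⟨3 * Real.exp (2 * C₀ + 2), by positivity, ?_⟩
  have tN : Tendsto (fun N : ℕ => (N : ℝ)) atTop atTop := tendsto_natCast_atTop_atTop
  have tL : Tendsto (fun N : ℕ => Real.log (N : ℝ)) atTop atTop := Real.tendsto_log_atTop.comp tN
  filter_upwards [tL.eventually_ge_atTop 4] with x hL4 T hT hTk w z hw hz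
  obtain ⟨L, hL⟩ : ∃ L : ℝ, L = Real.log (x : ℝ) := ⟨_, rfl⟩
  rw [← hL] at hL4 hTk ⊢
  obtain ⟨Y, hY⟩ : ∃ Y : ℕ, Y = YY x := ⟨_, rfl⟩
  rw [← hY] at hw hz
  have hL0 : 0 < L := by linarith
  have hYge : L ^ 2 ≤ (Y : ℝ) := by rw [hY, hL]; exact Nat.le_ceil _
  have hYlt : (Y : ℝ) < L ^ 2 + 1 := by rw [hY, hL]; exact Nat.ceil_lt_add_one (by positivity)
  have hY16 : (16 : ℝ) ≤ Y := by nlinarith
  have hY3 : 3 ≤ Y := by
    have : (3 : ℝ) ≤ Y := by linarith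
    exact_mod_cast this
  have hY0 : (0 : ℝ) < Y := by linarith
  have hz3 : 3 ≤ z := hY3.trans hz
  have hzY : (Y : ℝ) ≤ z := by exact_mod_cast hz
  have hlz : 0 < Real.log (z : ℝ) := Real.log_pos (by linarith)
  have hlY : 0 < Real.log (Y : ℝ) := Real.log_pos (by linarith)
  have hLL : 0 < Real.log L := Real.log_pos (by linarith)
  -- log Y ≤ 3 log L
  have hlY3 : Real.log Y ≤ 3 * Real.log L := by
    have h1 : (Y : ℝ) ≤ L ^ 3 := by nlinarith [sq_nonneg L]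
    have h2 := Real.log_le_log hY0 h1
    rw [Real.log_pow] at h2
    push_cast at h2
    exact h2
  -- the split
  rw [VV_split (hw.trans hz) (QR Rs T)]
  have hW : WW (QR Rs T) w z ≤ WW (QR Rs T) Y z := by
    unfold WW
    have hsub : pb Y z ⊆ pb w z := by
      intro p hp
      rw [mem_pb] at hp ⊢
      exact ⟨hp.1, lt_of_le_of_lt hw hp.2.1, hp.2.2⟩
    rw [← prod_sdiff hsub]
    calc _ ≤ 1 * ∏ p ∈ pb Y z, (1 - (rho (QR Rs T) p : ℝ) / p) := by
          apply mul_le_mul_of_nonneg_right _ (prod_nonneg fun p _ => fac_nonneg _ p)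
          exact prod_le_one (fun p _ => fac_nonneg _ p) fun p _ => fac_le_one _ p
      _ = _ := one_mul _
  apply mul_le_mul_of_nonneg_left _ (VV_nonneg _ _)
  refine hW.trans ?_
  set k := T.card with hk
  have hk0 : (0 : ℝ) ≤ k := Nat.cast_nonneg k
  have h1 : WW (QR Rs T) Y z ≤ Real.exp (-∑ p ∈ pb Y z, (rho (QR Rs T) p : ℝ) / p) := by
    unfold WW
    rw [← sum_neg_distrib, Real.exp_sum]
    apply prod_le_prod (fun p _ => fac_nonneg _ p)
    intro p _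
    have := Real.add_one_le_exp (-((rho (QR Rs T) p : ℝ) / p))
    linarith
  have hP : ∀ p ∈ pb Y z, p.Prime ∧ Y < p := fun p hp => ⟨(mem_pb.1 hp).1, (mem_pb.1 hp).2.1⟩
  have h2 := coll T (P := pb Y z) (Y := Y) (x := x) hP (by omega) hT
  rw [← hL, ← hk] at h2
  have h3 : (k : ℝ) ^ 2 * (2 * L / Y) ≤ 2 * k := by
    rw [mul_div_assoc', div_le_iff₀ hY0]
    have e1 : (k : ℝ) ^ 2 * (2 * L) ≤ 2 * k * L ^ 2 := by
      have : (k : ℝ) * (k * L) ≤ k * (L * L) :=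
        mul_le_mul_of_nonneg_left (mul_le_mul_of_nonneg_right hTk hL0.le) hk0
      nlinarith
    have e2 : 2 * (k : ℝ) * L ^ 2 ≤ 2 * k * Y := mul_le_mul_of_nonneg_left hYge (by positivity)
    linarith
  have h4 : ∑ p ∈ pb Y z, ((k : ℝ) - rho (QR Rs T) p) / p =
      k * (RR z - RR Y) - ∑ p ∈ pb Y z, (rho (QR Rs T) p : ℝ) / p := by
    unfold RR
    rw [← sum_pb hz, mul_sum, ← sum_sub_distrib]
    apply sum_congr rfl
    intro p _
    ring
  have m1 := (abs_le.1 (hM z hz3)).1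
  have m2 := (abs_le.1 (hM Y hY3)).2
  have h5 : -∑ p ∈ pb Y z, (rho (QR Rs T) p : ℝ) / p ≤
      k * (Real.log (Real.log Y) - Real.log (Real.log z) + (2 * C₀ + 2)) := by
    have e1 : (k : ℝ) * (RR Y - RR z) ≤ k * (Real.log (Real.log Y) - Real.log (Real.log z) + 2 * C₀) :=
      mul_le_mul_of_nonneg_left (by linarith) hk0
    nlinarith
  refine h1.trans ((Real.exp_le_exp.2 h5).trans ?_)
  have h6 : Real.exp (k * (Real.log (Real.log Y) - Real.log (Real.log z) + (2 * C₀ + 2))) =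
      (Real.log Y / Real.log z * Real.exp (2 * C₀ + 2)) ^ k := by
    rw [Real.exp_nat_mul, Real.exp_add, Real.exp_sub, Real.exp_log hlY, Real.exp_log hlz]
  rw [h6]
  apply pow_le_pow_left₀ (by positivity)
  rw [div_mul_eq_mul_div]
  apply div_le_div_of_nonneg_right _ hlz.le
  have := mul_le_mul_of_nonneg_right hlY3 (Real.exp_pos (2 * C₀ + 2)).le
  linarith

end Pool.Agent.V1137.UK
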