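import Pool.Agent.V1137.UK.B

/-! Uniform prime tuples: moments of the local densities. -/

set_option autoImplicit false

namespace Pool.Agent.V1137.UK

open Finset Filter Pool.Agent.Y822.G

/-- the product of the primes up to `w` -/
def MM (w : ℕ) : ℕ := ∏ p ∈ ps w, p

lemma ps_pr {w p : ℕ} (hp : p ∈ ps w) : p.Prime := (mem_ps.1 hp).1

lemma MM_pos (w : ℕ) : 0 < MM w := prod_pos fun _ hp => (ps_pr hp).pos

/-- counting a periodic condition -/
lemma cntA (A : ℕ → ℕ → Prop) [∀ p a, Decidable (A p a)] (X : ℕ) (S : Finset ℕ) (hS : ∀ p ∈ S, p.Prime) :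
    |(((Icc 1 X).filter (fun n => ∀ p ∈ S, A p (n % p))).card : ℝ) -
      X * ∏ p ∈ S, ((((range p).filter (fun a => A p a)).card : ℝ) / p)| ≤
      (∏ p ∈ S, p : ℕ) * ∏ p ∈ S, ((((range p).filter (fun a => A p a)).card : ℝ) / p) := by
  have h := Pool.Agent.H373R2.T7.count_sys A X S hS 1 le_rfl (fun p hp hd => (hS p hp).one_lt.ne' (Nat.dvd_one.1 hd)) 0
  have e1 : ((Icc 1 X).filter (fun n => n ≡ 0 [MOD 1] ∧ ∀ p ∈ S, A p (n % p))) =
      (Icc 1 X).filter (fun n => ∀ p ∈ S, A p (n % p)) := by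
    apply filter_congr
    intro n _
    exact ⟨fun h => h.2, fun h => ⟨Nat.modEq_one, h⟩⟩
  rw [e1] at h
  rw [Nat.cast_one, div_one] at h
  refine h.trans (le_of_eq ?_)
  push_cast
  rw [← prod_mul_distrib]
  apply prod_congr rfl
  intro p hp
  have : (p : ℝ) ≠ 0 := by exact_mod_cast (hS p hp).ne_zero
  field_simp

/-- the count of the classes outside `-T` -/
lemma card_not (T : Finset ℕ) {p : ℕ} (hp : p.Prime) [DecidablePred fun r => ¬ QR Rs T p r] :
    (((range p).filter (fun r => ¬ QR Rs T p r)).card : ℝ) / p = 1 - (rho (QR Rs T) p : ℝ) / p := by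
  classical
  have hp0 : (p : ℝ) ≠ 0 := by exact_mod_cast hp.ne_zero
  have h := card_filter_add_card_filter_not (s := range p) (fun r => QR Rs T p r)
  rw [card_range] at h
  have h2 : (((range p).filter (fun r => QR Rs T p r)).card : ℝ) +
      (((range p).filter (fun r => ¬ QR Rs T p r)).card : ℝ) = p := by exact_mod_cast h
  have h3 : (((range p).filter (fun r => QR Rs T p r)).card : ℝ) = rho (QR Rs T) p := by
    unfold rho
    congr 1
  rw [h3] at h2
  rw [eq_sub_iff_add_eq, ← add_div, div_eq_one_iff_eq hp0]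
  linarith

lemma perQ (T : Finset ℕ) : Per (QR Rs T) := per_QR fun a _ => per_Rs a

/-- the main counting lemma for the complement of `-T` -/
lemma cntT (T : Finset ℕ) (w X : ℕ) [DecidablePred fun n => ∀ p ∈ ps w, ¬ QR Rs T p n] :
    |(((Icc 1 X).filter (fun n => ∀ p ∈ ps w, ¬ QR Rs T p n)).card : ℝ) - X * VV (QR Rs T) w| ≤
      MM w * VV (QR Rs T) w := by
  classical
  have h := cntA (fun p r => ¬ QR Rs T p r) X (ps w) (fun p hp => ps_pr hp)
  have e1 : ((Icc 1 X).filter (fun n => ∀ p ∈ ps w, ¬ QR Rs T p (n % p))) =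
      (Icc 1 X).filter (fun n => ∀ p ∈ ps w, ¬ QR Rs T p n) := by
    apply filter_congr
    intro n _
    exact ⟨fun h p hp h' => h p hp ((perQ T p n).2 h'), fun h p hp h' => h p hp ((perQ T p n).1 h')⟩
  have e2 : ∏ p ∈ ps w, ((((range p).filter (fun r => ¬ QR Rs T p r)).card : ℝ) / p) = VV (QR Rs T) w := by
    unfold VV
    exact prod_congr rfl fun p hp => card_not T (ps_pr hp)
  rw [e1, e2] at h
  unfold MM
  convert h using 3

lemma cntT_le (T : Finset ℕ) {w X : ℕ} (hX : MM w ≤ X) [DecidablePred fun n => ∀ p ∈ ps w, ¬ QR Rs T p n] :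
    (((Icc 1 X).filter (fun n => ∀ p ∈ ps w, ¬ QR Rs T p n)).card : ℝ) ≤ 2 * X * VV (QR Rs T) w := by
  have h := (abs_le.1 (cntT T w X)).2
  have h1 : (MM w : ℝ) * VV (QR Rs T) w ≤ X * VV (QR Rs T) w :=
    mul_le_mul_of_nonneg_right (by exact_mod_cast hX) (VV_nonneg _ _)
  linarith

lemma cntT_ge (T : Finset ℕ) {w X : ℕ} (hX : 2 * MM w ≤ X) [DecidablePred fun n => ∀ p ∈ ps w, ¬ QR Rs T p n] :
    X * VV (QR Rs T) w / 2 ≤ (((Icc 1 X).filter (fun n => ∀ p ∈ ps w, ¬ QR Rs T p n)).card : ℝ) := by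
  have h := (abs_le.1 (cntT T w X)).1
  have h0 : 2 * (MM w : ℝ) ≤ X := by exact_mod_cast hX
  have h1 : 2 * (MM w : ℝ) * VV (QR Rs T) w ≤ X * VV (QR Rs T) w :=
    mul_le_mul_of_nonneg_right h0 (VV_nonneg _ _)
  linarith

/-- the elements `a ≤ H` of the good classes -/
lemma cntR (U : Finset ℕ) {w H : ℕ} (hH : MM w ≤ H + 1) (G : Finset ℕ)
    (hG : ∀ a ∈ G, a ≤ H ∧ ∀ u ∈ U, ∀ p ∈ ps w, ¬ p ∣ u + 1 + a) :
    (G.card : ℝ) ≤ 2 * (H + 1) * VV (QR Rs U) w := by
  classical
  have h := cntT_le U (X := H + 1) hH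
  push_cast at h
  refine le_trans ?_ h
  have h1 : G.card ≤ ((Icc 1 (H + 1)).filter (fun n => ∀ p ∈ ps w, ¬ QR Rs U p n)).card := by
    refine card_le_card_of_injOn (fun a => a + 1) ?_ (fun a _ b _ h => by simpa using h)
    intro a ha
    have h2 := hG a ha
    rw [mem_coe, mem_filter, mem_Icc]
    refine ⟨⟨Nat.le_add_left 1 a, Nat.add_le_add_right h2.1 1⟩, ?_⟩
    rintro p hp ⟨u, hu, hd⟩
    unfold Rs at hd
    refine h2.2 u hu p hp ?_
    have e : u + 1 + a = a + 1 + u := by ring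
    rwa [e]
  exact_mod_cast h1

lemma rho_pos_of {T : Finset ℕ} (hT : T.Nonempty) {p : ℕ} (hp : p.Prime) : 1 ≤ rho (QR Rs T) p := by
  classical
  obtain ⟨a, ha⟩ := hT
  have h1 := rho_ge {a} hp
  rw [card_singleton] at h1
  have h2 : ({a} : Finset ℕ).filter (fun x => ∃ b ∈ ({a} : Finset ℕ), b < x ∧ p ∣ x - b) = ∅ := by
    rw [filter_eq_empty_iff]
    rintro x hx ⟨b, hb, hb2, -⟩
    rw [mem_singleton] at hx hb
    omega
  rw [h2, card_empty] at h1
  refine le_trans (by omega : 1 ≤ rho (QR Rs {a}) p) ?_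
  unfold rho
  apply card_le_card
  intro r hr
  rw [mem_filter] at hr ⊢
  obtain ⟨hr1, b, hb, hb2⟩ := hr
  rw [mem_singleton] at hb
  exact ⟨hr1, a, ha, hb ▸ hb2⟩

/-- the number of the classes of two numbers -/
def nu (u v p : ℕ) : ℝ := if p ∣ u - v ∧ p ∣ v - u then 1 else 2

lemma rho_pair (u v : ℕ) {p : ℕ} (hp : p.Prime) : nu u v p ≤ rho (QR Rs {u, v}) p := by
  classical
  unfold nu
  split_ifs with h
  · exact_mod_cast rho_pos_of (by simp) hp
  · have huv : u ≠ v := by
      rintro rfl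
      simp at h
    have h1 := rho_ge {u, v} hp
    rw [card_pair huv] at h1
    have h2 : ({u, v} : Finset ℕ).filter (fun x => ∃ b ∈ ({u, v} : Finset ℕ), b < x ∧ p ∣ x - b) = ∅ := by
      rw [filter_eq_empty_iff]
      rintro x hx ⟨b, hb, hb2, hb3⟩
      rw [mem_insert, mem_singleton] at hx hb
      apply h
      rcases hx with rfl | rfl <;> rcases hb with rfl | rfl
      · omega
      · have : b - x = 0 := by omega
        exact ⟨hb3, by rw [this]; exact dvd_zero _⟩
      · have : b - x = 0 := by omega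
        exact ⟨by rw [this]; exact dvd_zero _, hb3⟩
      · omega
    rw [h2, card_empty] at h1
    exact_mod_cast h1

/-- the two densities and their average -/
noncomputable def al (k p : ℕ) : ℝ := (1 - 1 / (p : ℝ)) ^ k
noncomputable def be (k p : ℕ) : ℝ := (1 - 2 / (p : ℝ)) ^ k

lemma be_le_al {k p : ℕ} (hp : 2 ≤ p) : 0 ≤ be k p ∧ be k p ≤ al k p := by
  have hp' : (2 : ℝ) ≤ p := by exact_mod_cast hp
  have h1 : 0 ≤ 1 - 2 / (p : ℝ) := by
    rw [sub_nonneg, div_le_one (by linarith)]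
    exact hp'
  refine ⟨pow_nonneg h1 _, pow_le_pow_left₀ h1 ?_ _⟩
  have : 1 / (p : ℝ) ≤ 2 / p := div_le_div_of_nonneg_right (by norm_num) (by linarith)
  linarith

/-- the sum over the second variable -/
lemma sum_second (k w u : ℕ) :
    ∑ v ∈ Icc 1 (2 * MM w), ∏ p ∈ ps w, (1 - nu u v p / p) ^ k ≤
      3 * MM w * ∏ p ∈ ps w, (be k p + (al k p - be k p) / p) := by
  classical
  have h2 : ∀ p ∈ ps w, 2 ≤ p := fun p hp => (ps_pr hp).two_le
  have e1 : ∀ v, ∏ p ∈ ps w, (1 - nu u v p / p) ^ k =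
      ∑ t ∈ (ps w).powerset, (if ∀ p ∈ t, p ∣ u - v ∧ p ∣ v - u then (1 : ℝ) else 0) *
        ((∏ p ∈ t, (al k p - be k p)) * ∏ p ∈ ps w \ t, be k p) := by
    intro v
    have e2 : ∀ p ∈ ps w, (1 - nu u v p / p) ^ k =
        (if p ∣ u - v ∧ p ∣ v - u then 1 else 0) * (al k p - be k p) + be k p := by
      intro p _
      unfold nu al be
      split_ifs <;> ring
    rw [prod_congr rfl e2, prod_add]
    apply sum_congr rfl
    intro t ht
    rw [prod_mul_distrib, mul_assoc]
    congr 1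
    split_ifs with h
    · exact prod_eq_one fun p hp => if_pos (h p hp)
    · push Not at h
      obtain ⟨p, hp, hp2⟩ := h
      exact prod_eq_zero hp (if_neg fun h' => hp2 h'.1 h'.2)
  simp_rw [e1]
  rw [sum_comm]
  have e3 : ∏ p ∈ ps w, (be k p + (al k p - be k p) / p) =
      ∑ t ∈ (ps w).powerset, (1 / ((∏ p ∈ t, p : ℕ) : ℝ)) *
        ((∏ p ∈ t, (al k p - be k p)) * ∏ p ∈ ps w \ t, be k p) := by
    have : ∀ p ∈ ps w, be k p + (al k p - be k p) / p = (1 / (p : ℝ)) * (al k p - be k p) + be k p := by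
      intro p _
      ring
    rw [prod_congr rfl this, prod_add]
    apply sum_congr rfl
    intro t ht
    rw [prod_mul_distrib, mul_assoc]
    congr 1
    push_cast
    rw [prod_div_distrib, prod_const_one]
  rw [e3, mul_sum]
  apply sum_le_sum
  intro t ht
  rw [mem_powerset] at ht
  rw [← sum_mul]
  have e0 : 3 * (MM w : ℝ) * (1 / ((∏ p ∈ t, p : ℕ) : ℝ) * ((∏ p ∈ t, (al k p - be k p)) * ∏ p ∈ ps w \ t, be k p)) =
      3 * (MM w : ℝ) * (1 / ((∏ p ∈ t, p : ℕ) : ℝ)) * ((∏ p ∈ t, (al k p - be k p)) * ∏ p ∈ ps w \ t, be k p) := by ring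
  rw [e0]
  apply mul_le_mul_of_nonneg_right
  · -- the count
    have hpr : ∀ p ∈ t, p.Prime := fun p hp => ps_pr (ht hp)
    have h := cntA (fun p r => r % p = u % p) (2 * MM w) t hpr
    have e4 : ∀ p ∈ t, (((range p).filter (fun a => a % p = u % p)).card : ℝ) = 1 := by
      intro p hp
      have hp0 := (hpr p hp).pos
      have : (range p).filter (fun a => a % p = u % p) = {u % p} := by
        ext a
        rw [mem_filter, mem_range, mem_singleton]
        constructor
        · rintro ⟨h1, h2⟩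
          rwa [Nat.mod_eq_of_lt h1] at h2
        · rintro rfl
          exact ⟨Nat.mod_lt _ hp0, Nat.mod_mod _ _⟩
      rw [this, card_singleton, Nat.cast_one]
    have e5 : ∏ p ∈ t, ((((range p).filter (fun a => a % p = u % p)).card : ℝ) / p) = 1 / ((∏ p ∈ t, p : ℕ) : ℝ) := by
      push_cast
      rw [← prod_const_one (s := t), ← prod_div_distrib]
      exact prod_congr rfl fun p hp => by rw [e4 p hp]
    rw [e5] at h
    have hpos : (0 : ℝ) < ((∏ p ∈ t, p : ℕ) : ℝ) := by
      exact_mod_cast prod_pos fun p hp => (hpr p hp).pos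
    have hle : ((∏ p ∈ t, p : ℕ) : ℝ) ≤ MM w := by
      unfold MM
      exact_mod_cast Nat.le_of_dvd (MM_pos w) (prod_dvd_prod_of_subset _ _ _ ht)
    have h3 := (abs_le.1 h).2
    rw [mul_one_div_cancel hpos.ne'] at h3
    have h4 : ∑ v ∈ Icc 1 (2 * MM w), (if ∀ p ∈ t, p ∣ u - v ∧ p ∣ v - u then (1 : ℝ) else 0) ≤
        (((Icc 1 (2 * MM w)).filter (fun n => ∀ p ∈ t, n % p % p = u % p)).card : ℝ) := by
      rw [← sum_filter, sum_const, nsmul_eq_mul, mul_one]
      have : (Icc 1 (2 * MM w)).filter (fun v => ∀ p ∈ t, p ∣ u - v ∧ p ∣ v - u) ⊆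
          (Icc 1 (2 * MM w)).filter (fun n => ∀ p ∈ t, n % p % p = u % p) := by
        intro v hv
        rw [mem_filter] at hv ⊢
        refine ⟨hv.1, fun p hp => ?_⟩
        obtain ⟨g1, g2⟩ := hv.2 p hp
        rw [Nat.mod_mod]
        rcases Nat.le_total u v with h | h
        · exact ((Nat.modEq_iff_dvd' h).2 g2).symm
        · exact ((Nat.modEq_iff_dvd' h).2 g1)
      exact_mod_cast card_le_card this
    refine h4.trans ?_
    have h5 : (1 : ℝ) ≤ MM w * (1 / ((∏ p ∈ t, p : ℕ) : ℝ)) := by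
      rw [mul_one_div, le_div_iff₀ hpos, one_mul]
      exact hle
    push_cast at h3 ⊢
    push_cast at h5
    linarith
  · apply mul_nonneg
    · exact prod_nonneg fun p hp => by have := (be_le_al (k := k) (h2 p (ht hp))).2; linarith
    · exact prod_nonneg fun p hp => (be_le_al (k := k) (h2 p (mem_sdiff.1 hp).1)).1

/-- the factors of the second moment -/
lemma fac_small (k : ℕ) {p : ℕ} (hp : p.Prime) :
    0 ≤ be k p + (al k p - be k p) / p ∧ be k p + (al k p - be k p) / p ≤ Real.exp (-(k / p)) := by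
  have hp2 : (2 : ℝ) ≤ p := by exact_mod_cast hp.two_le
  obtain ⟨h1, h2⟩ := be_le_al (k := k) hp.two_le
  have h3 : (al k p - be k p) / p ≤ (al k p - be k p) := div_le_self (by linarith) (by linarith)
  refine ⟨add_nonneg h1 (div_nonneg (by linarith) (by linarith)), ?_⟩
  calc be k p + (al k p - be k p) / p ≤ al k p := by linarith
    _ ≤ (Real.exp (-(1 / p))) ^ k := by
        unfold al
        apply pow_le_pow_left₀
        · rw [sub_nonneg, div_le_one (by linarith)]; linarith
        · have := Real.add_one_le_exp (-(1 / (p : ℝ)))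
          linarith
    _ = Real.exp (-(k / p)) := by
        rw [← Real.exp_nat_mul]
        congr 1
        ring

lemma fac_large (k : ℕ) {p : ℕ} (hp : p.Prime) (hkp : k < p) :
    be k p + (al k p - be k p) / p ≤ Real.exp (-(2 * k / p) + 4 * k / p ^ 2) := by
  have hp2 : (2 : ℝ) ≤ p := by exact_mod_cast hp.two_le
  have hp0 : (0 : ℝ) < p := by linarith
  have hk0 : (0 : ℝ) ≤ k := Nat.cast_nonneg k
  have hkp' : (k : ℝ) ≤ p := by exact_mod_cast hkp.le
  set t : ℝ := 1 / p with ht
  have ht0 : 0 < t := by positivity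
  have ht2 : t ≤ 1 / 2 := one_div_le_one_div_of_le (by norm_num) hp2
  have e2 : (2 : ℝ) / p = 2 * t := by rw [ht]; ring
  -- `al` from below
  set A : ℝ := (1 - t) ^ k with hA
  have hA0 : 0 < A := pow_pos (by linarith) _
  have hA1 : A ≤ 1 := pow_le_one₀ (by linarith) (by linarith)
  have hA4 : 1 / 4 ≤ A := by
    have h1 : (1 - t) ^ p ≤ A := pow_le_pow_of_le_one (by linarith) (by linarith) hkp.le
    refine le_trans ?_ h1
    -- (1 - 1/p)^p ≥ 1/4
    have h3 : Real.exp (-(2 * Real.log 2) * t) ≤ 1 - t := by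
      -- convexity: exp(-2 log 2 t) ≤ 1 - t on [0,1/2]
      have hc := convexOn_exp.2 (Set.mem_univ (0 : ℝ)) (Set.mem_univ (-Real.log 2))
        (show (0 : ℝ) ≤ 1 - 2 * t by linarith) (show (0 : ℝ) ≤ 2 * t by linarith) (by ring)
      simp only [smul_eq_mul, mul_zero, zero_add, Real.exp_zero, mul_one] at hc
      rw [Real.exp_neg, Real.exp_log (by norm_num : (0 : ℝ) < 2)] at hc
      calc Real.exp (-(2 * Real.log 2) * t) = Real.exp (2 * t * -Real.log 2) := by congr 1; ring
        _ ≤ _ := hc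
        _ = 1 - t := by ring
    calc (1 / 4 : ℝ) = Real.exp (-(2 * Real.log 2)) := by
          rw [Real.exp_neg, two_mul, Real.exp_add, Real.exp_log (by norm_num : (0 : ℝ) < 2)]
          norm_num
      _ = Real.exp (-(2 * Real.log 2) * t) ^ p := by
          rw [← Real.exp_nat_mul]
          congr 1
          rw [ht]
          field_simp
      _ ≤ (1 - t) ^ p := pow_le_pow_left₀ (Real.exp_pos _).le h3 _
  have hAk : 1 - k * t ≤ A := by
    have := one_add_mul_le_pow (show (-2 : ℝ) ≤ -t by linarith) k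
    have e : (1 + -t) ^ k = A := by rw [hA, sub_eq_add_neg]
    rw [e] at this
    linarith
  have hbe : be k p ≤ A ^ 2 := by
    unfold be
    rw [e2, hA, ← pow_mul, mul_comm k 2, pow_mul]
    apply pow_le_pow_left₀
    · linarith
    · nlinarith
  have hal : al k p = A := rfl
  have h4 : be k p + (al k p - be k p) / p ≤ A ^ 2 * (1 + 4 * k * t ^ 2) := by
    rw [hal]
    have e : be k p + (A - be k p) / p = be k p * (1 - t) + A * t := by rw [ht]; ring
    rw [e]
    have h5 : be k p * (1 - t) ≤ A ^ 2 * (1 - t) := mul_le_mul_of_nonneg_right hbe (by linarith)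
    have h6 : A ≤ A ^ 2 * (1 + 4 * (k * t)) := by
      -- A (1 - A) ≤ A * k t ≤ 4 A^2 k t
      have h7 : A * (1 - A) ≤ A * (k * t) := mul_le_mul_of_nonneg_left (by linarith) hA0.le
      have h8 : A * (k * t) ≤ A * (k * t) * (4 * A) :=
        le_mul_of_one_le_right (by positivity) (by linarith)
      nlinarith
    have h9 : A * t ≤ A ^ 2 * (1 + 4 * (k * t)) * t := mul_le_mul_of_nonneg_right h6 ht0.le
    nlinarith
  refine h4.trans ?_
  have h10 : A ^ 2 ≤ Real.exp (-(2 * k / p)) := by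
    calc A ^ 2 = ((1 - t) ^ k) ^ 2 := rfl
      _ ≤ ((Real.exp (-t)) ^ k) ^ 2 := by
          apply pow_le_pow_left₀ hA0.le
          apply pow_le_pow_left₀ (by linarith)
          have := Real.add_one_le_exp (-t)
          linarith
      _ = Real.exp (-(2 * k / p)) := by
          rw [← Real.exp_nat_mul, ← Real.exp_nat_mul]
          congr 1
          rw [ht]
          push_cast
          ring
  have h11 : 1 + 4 * k * t ^ 2 ≤ Real.exp (4 * k / p ^ 2) := by
    have := Real.add_one_le_exp (4 * k / (p : ℝ) ^ 2)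
    have e : 4 * (k : ℝ) * t ^ 2 = 4 * k / p ^ 2 := by rw [ht]; ring
    linarith
  rw [Real.exp_add]
  exact mul_le_mul h10 h11 (by positivity) (Real.exp_pos _).le

lemma sum_sq_tail {m n : ℕ} (hm : 1 ≤ m) : ∑ p ∈ Ioc m n, (1 : ℝ) / (p : ℝ) ^ 2 ≤ (1 : ℝ) / (m : ℝ) := by
  have hm0 : (0 : ℝ) < m := by exact_mod_cast hm
  rcases Nat.lt_or_ge n m with h | h
  · rw [Ioc_eq_empty (by omega), sum_empty]
    positivity
  · have : ∑ p ∈ Ioc m n, (1 : ℝ) / (p : ℝ) ^ 2 ≤ (1 : ℝ) / (m : ℝ) - 1 / (n : ℝ) := by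
      induction n, h using Nat.le_induction with
      | base => simp
      | succ n hn ih =>
        rw [sum_Ioc_succ_top hn]
        have hn0 : (0 : ℝ) < n := by exact_mod_cast (by omega : 0 < n)
        have h1 : 1 / ((n + 1 : ℕ) : ℝ) ^ 2 ≤ 1 / n - 1 / ((n + 1 : ℕ) : ℝ) := by
          push_cast
          rw [div_sub_div _ _ hn0.ne' (by positivity), div_le_div_iff₀ (by positivity) (by positivity)]
          nlinarith
        linarith
    refine this.trans ?_
    have : (0 : ℝ) ≤ 1 / (n : ℝ) := by positivity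
    linarith

lemma prod_second (k w : ℕ) (hw : k + 2 ≤ w) :
    ∏ p ∈ ps w, (be k p + (al k p - be k p) / p) ≤ Real.exp (4 - 2 * k * RR w + k * RR (k + 2)) := by
  have hsub : ps (k + 2) ⊆ ps w := by
    intro p hp
    rw [mem_ps] at hp ⊢
    exact ⟨hp.1, hp.2.trans hw⟩
  have hk0 : (0 : ℝ) ≤ k := Nat.cast_nonneg k
  rw [ps_union hw, prod_union (by
    rw [disjoint_left]
    intro p hp hp'
    rw [mem_ps] at hp
    rw [mem_pb] at hp'
    omega)]
  have h1 : ∏ p ∈ ps (k + 2), (be k p + (al k p - be k p) / p) ≤ Real.exp (-(k * RR (k + 2))) := by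
    calc _ ≤ ∏ p ∈ ps (k + 2), Real.exp (-(k / p)) :=
          prod_le_prod (fun p hp => (fac_small k (ps_pr hp)).1) fun p hp => (fac_small k (ps_pr hp)).2
      _ = _ := by
          rw [← Real.exp_sum]
          congr 1
          unfold RR
          rw [sum_neg_distrib, mul_sum]
          congr 1
          exact sum_congr rfl fun p _ => by ring
  have h2 : ∏ p ∈ pb (k + 2) w, (be k p + (al k p - be k p) / p) ≤
      Real.exp (-(2 * k * (RR w - RR (k + 2))) + 4) := by
    calc _ ≤ ∏ p ∈ pb (k + 2) w, Real.exp (-(2 * k / p) + 4 * k / p ^ 2) := by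
          apply prod_le_prod (fun p hp => (fac_small k (mem_pb.1 hp).1).1)
          intro p hp
          exact fac_large k (mem_pb.1 hp).1 (by have := (mem_pb.1 hp).2.1; omega)
      _ = Real.exp (-(2 * k * (RR w - RR (k + 2))) + 4 * k * ∑ p ∈ pb (k + 2) w, 1 / (p : ℝ) ^ 2) := by
          rw [← Real.exp_sum]
          congr 1
          unfold RR
          rw [← sum_pb hw, sum_add_distrib, mul_sum, mul_sum, ← sum_neg_distrib]
          congr 1
          · exact sum_congr rfl fun p _ => by ring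
          · exact sum_congr rfl fun p _ => by ring
      _ ≤ _ := by
          apply Real.exp_le_exp.2
          have h3 : ∑ p ∈ pb (k + 2) w, 1 / (p : ℝ) ^ 2 ≤ 1 / ((k + 2 : ℕ) : ℝ) := by
            refine le_trans (sum_le_sum_of_subset_of_nonneg (t := Ioc (k + 2) w) ?_ ?_) (sum_sq_tail (by omega))
            · intro p hp
              rw [mem_pb] at hp
              rw [mem_Ioc]
              exact ⟨hp.2.1, hp.2.2⟩
            · intro p _ _
              positivity
          have h4 : 4 * (k : ℝ) * ∑ p ∈ pb (k + 2) w, 1 / (p : ℝ) ^ 2 ≤ 4 * k * (1 / ((k + 2 : ℕ) : ℝ)) :=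
            mul_le_mul_of_nonneg_left h3 (by positivity)
          have h5 : 4 * (k : ℝ) * (1 / ((k + 2 : ℕ) : ℝ)) ≤ 4 := by
            push_cast
            rw [mul_one_div, div_le_iff₀ (by linarith)]
            linarith
          linarith
  calc _ ≤ Real.exp (-(k * RR (k + 2))) * Real.exp (-(2 * k * (RR w - RR (k + 2))) + 4) :=
        mul_le_mul h1 h2 (prod_nonneg fun p hp => (fac_small k (mem_pb.1 hp).1).1) (Real.exp_pos _).le
    _ = _ := by
        rw [← Real.exp_add]
        congr 1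
        ring

end Pool.Agent.V1137.UK
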