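import Pool.Agent.V1137.UK.C

/-! Uniform prime tuples: averages over all the sets of `k` shifts. -/

set_option autoImplicit false

namespace Pool.Agent.V1137.UK

open Finset Filter Pool.Agent.Y822.G

/-- the sets of `k` shifts `≤ H` -/
def Pk (k H : ℕ) : Finset (Finset ℕ) := (range (H + 1)).powersetCard k

lemma mem_Pk {k H : ℕ} {T : Finset ℕ} : T ∈ Pk k H ↔ (∀ a ∈ T, a ≤ H) ∧ T.card = k := by
  unfold Pk
  rw [mem_powersetCard]
  constructor
  · rintro ⟨h1, h2⟩
    exact ⟨fun a ha => Nat.lt_succ_iff.1 (mem_range.1 (h1 ha)), h2⟩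
  · rintro ⟨h1, h2⟩
    exact ⟨fun a ha => mem_range.2 (Nat.lt_succ_iff.2 (h1 a ha)), h2⟩

lemma card_Pk (k H : ℕ) : (Pk k H).card = (H + 1).choose k := by
  unfold Pk
  rw [card_powersetCard, card_range]

lemma choose_le (n k : ℕ) {B : ℝ} (h : (n : ℝ) ≤ B) : (n.choose k : ℝ) ≤ B ^ k / k.factorial := by
  refine (Nat.choose_le_pow_div k n).trans ?_
  apply div_le_div_of_nonneg_right _ (by positivity)
  exact pow_le_pow_left₀ (Nat.cast_nonneg _) h _

/-- the sets inside a given set -/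
lemma card_sub (k H : ℕ) (G : Finset ℕ) (hG : G ⊆ range (H + 1)) [DecidablePred fun T : Finset ℕ => T ⊆ G] :
    ((Pk k H).filter (fun T => T ⊆ G)).card = G.card.choose k := by
  rw [← card_powersetCard]
  congr 1
  ext T
  unfold Pk
  rw [mem_filter, mem_powersetCard, mem_powersetCard]
  exact ⟨fun h => ⟨h.2, h.1.2⟩, fun h => ⟨⟨h.1.trans hG, h.2⟩, h.1⟩⟩

open Classical in
/-- the good shifts for `u` -/
noncomputable def GG (w H u : ℕ) : Finset ℕ := (range (H + 1)).filter (fun a => ∀ p ∈ ps w, ¬ p ∣ u + a)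

lemma GG_sub (w H u : ℕ) : GG w H u ⊆ range (H + 1) := by
  unfold GG
  exact filter_subset _ _

open Classical in
/-- the number of the good `u` -/
noncomputable def cc (w : ℕ) (T : Finset ℕ) : ℕ :=
  ((Icc 1 (2 * MM w)).filter (fun n => ∀ p ∈ ps w, ¬ QR Rs T p n)).card

lemma VV_le_cc (w : ℕ) (T : Finset ℕ) : MM w * VV (QR Rs T) w ≤ cc w T := by
  classical
  have h := cntT_ge T (w := w) (X := 2 * MM w) le_rfl
  unfold cc
  push_cast at h
  refine le_trans (le_of_eq (by ring)) h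

lemma good_iff {w H u : ℕ} {T : Finset ℕ} (hT : T ⊆ range (H + 1)) :
    (∀ p ∈ ps w, ¬ QR Rs T p u) ↔ T ⊆ GG w H u := by
  classical
  unfold GG
  constructor
  · intro h a ha
    rw [mem_filter]
    exact ⟨hT ha, fun p hp hd => h p hp ⟨a, ha, hd⟩⟩
  · rintro h p hp ⟨a, ha, hd⟩
    have := h ha
    rw [mem_filter] at this
    exact this.2 p hp hd

lemma one_le_rho {p : ℕ} (u : ℕ) (hp : p.Prime) : (1 : ℝ) ≤ rho (QR Rs {u}) p := by
  exact_mod_cast rho_pos_of (by simp) hp

lemma VV_one_le (u w : ℕ) : VV (QR Rs {u}) w ≤ Real.exp (-RR w) := by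
  unfold VV RR
  rw [← sum_neg_distrib, Real.exp_sum]
  apply prod_le_prod (fun p _ => fac_nonneg _ p)
  intro p hp
  have hp0 : (0 : ℝ) < p := by exact_mod_cast (ps_pr hp).pos
  have h1 := div_le_div_of_nonneg_right (one_le_rho u (ps_pr hp)) hp0.le
  have := Real.add_one_le_exp (-(1 / (p : ℝ)))
  linarith

/-- first moment -/
lemma mom1 (k H w : ℕ) (hH : MM w ≤ H + 1) :
    ∑ T ∈ Pk k H, VV (QR Rs T) w ≤ 2 * (2 * (H + 1) * Real.exp (-RR w)) ^ k / k.factorial := by
  classical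
  have hM : (0 : ℝ) < MM w := by exact_mod_cast MM_pos w
  have h1 : MM w * ∑ T ∈ Pk k H, VV (QR Rs T) w ≤ ∑ T ∈ Pk k H, (cc w T : ℝ) := by
    rw [mul_sum]
    exact sum_le_sum fun T _ => VV_le_cc w T
  have h2 : ∑ T ∈ Pk k H, (cc w T : ℝ) =
      ∑ u ∈ Icc 1 (2 * MM w), (((GG w H u).card.choose k : ℕ) : ℝ) := by
    have e1 : ∀ T ∈ Pk k H, (cc w T : ℝ) = ∑ u ∈ Icc 1 (2 * MM w), if T ⊆ GG w H u then (1 : ℝ) else 0 := by
      intro T hT
      unfold cc
      rw [card_filter]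
      push_cast
      apply sum_congr rfl
      intro u _
      have := good_iff (w := w) (u := u) (mem_powersetCard.1 hT).1
      by_cases h : T ⊆ GG w H u
      · rw [if_pos h, if_pos (this.2 h)]
      · rw [if_neg h, if_neg fun h' => h (this.1 h')]
    rw [sum_congr rfl e1, sum_comm]
    apply sum_congr rfl
    intro u _
    rw [← sum_filter, sum_const, nsmul_eq_mul, mul_one, card_sub k H (GG w H u) (GG_sub w H u)]
  have h3 : ∀ u ∈ Icc 1 (2 * MM w), (((GG w H u).card.choose k : ℕ) : ℝ) ≤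
      (2 * (H + 1) * Real.exp (-RR w)) ^ k / k.factorial := by
    intro u hu
    rw [mem_Icc] at hu
    apply choose_le
    have := cntR {u - 1} hH (GG w H u) (fun a ha => by
      unfold GG at ha
      rw [mem_filter, mem_range] at ha
      refine ⟨by omega, fun v hv p hp => ?_⟩
      rw [mem_singleton] at hv
      subst hv
      have e : u - 1 + 1 + a = u + a := by omega
      rw [e]
      exact ha.2 p hp)
    refine this.trans ?_
    exact mul_le_mul_of_nonneg_left (VV_one_le _ _) (by positivity)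
  have h4 := sum_le_sum h3
  rw [sum_const, nsmul_eq_mul, Nat.card_Icc] at h4
  have h5 : MM w * ∑ T ∈ Pk k H, VV (QR Rs T) w ≤
      MM w * (2 * (2 * (H + 1) * Real.exp (-RR w)) ^ k / k.factorial) := by
    refine h1.trans ?_
    rw [h2]
    refine h4.trans (le_of_eq ?_)
    have : 2 * MM w + 1 - 1 = 2 * MM w := by omega
    rw [this]
    push_cast
    ring
  exact le_of_mul_le_mul_left h5 hM

/-- second moment -/
lemma mom2 (k H w : ℕ) (hH : MM w ≤ H + 1) (hw : k + 2 ≤ w) :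
    ∑ T ∈ Pk k H, VV (QR Rs T) w ^ 2 ≤
      6 * (2 * ((H : ℝ) + 1)) ^ k / k.factorial * Real.exp (4 - 2 * k * RR w + k * RR (k + 2)) := by
  classical
  have hM : (0 : ℝ) < MM w := by exact_mod_cast MM_pos w
  have hf : (0 : ℝ) < k.factorial := by exact_mod_cast Nat.factorial_pos k
  have h1 : (MM w : ℝ) ^ 2 * ∑ T ∈ Pk k H, VV (QR Rs T) w ^ 2 ≤ ∑ T ∈ Pk k H, (cc w T : ℝ) ^ 2 := by
    rw [mul_sum]
    apply sum_le_sum
    intro T _
    rw [← mul_pow]
    exact pow_le_pow_left₀ (mul_nonneg hM.le (VV_nonneg _ _)) (VV_le_cc w T) 2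
  have h2 : ∑ T ∈ Pk k H, (cc w T : ℝ) ^ 2 =
      ∑ u ∈ Icc 1 (2 * MM w), ∑ v ∈ Icc 1 (2 * MM w), (((GG w H u ∩ GG w H v).card.choose k : ℕ) : ℝ) := by
    have e1 : ∀ T ∈ Pk k H, (cc w T : ℝ) ^ 2 =
        ∑ u ∈ Icc 1 (2 * MM w), ∑ v ∈ Icc 1 (2 * MM w), if T ⊆ GG w H u ∩ GG w H v then (1 : ℝ) else 0 := by
      intro T hT
      have e2 : (cc w T : ℝ) = ∑ u ∈ Icc 1 (2 * MM w), if T ⊆ GG w H u then (1 : ℝ) else 0 := by
        unfold cc
        rw [card_filter]
        push_cast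
        apply sum_congr rfl
        intro u _
        have := good_iff (w := w) (u := u) (mem_powersetCard.1 hT).1
        by_cases h : T ⊆ GG w H u
        · rw [if_pos h, if_pos (this.2 h)]
        · rw [if_neg h, if_neg fun h' => h (this.1 h')]
      rw [e2, sq, sum_mul_sum]
      apply sum_congr rfl
      intro u _
      apply sum_congr rfl
      intro v _
      by_cases hu : T ⊆ GG w H u <;> by_cases hv : T ⊆ GG w H v <;> simp [hu, hv, subset_inter_iff]
    rw [sum_congr rfl e1, sum_comm]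
    apply sum_congr rfl
    intro u _
    rw [sum_comm]
    apply sum_congr rfl
    intro v _
    rw [← sum_filter, sum_const, nsmul_eq_mul, mul_one, card_sub k H (GG w H u ∩ GG w H v) (inter_subset_left.trans (GG_sub w H u))]
  have h3 : ∀ u ∈ Icc 1 (2 * MM w), ∀ v ∈ Icc 1 (2 * MM w),
      (((GG w H u ∩ GG w H v).card.choose k : ℕ) : ℝ) ≤
      (2 * ((H : ℝ) + 1)) ^ k / k.factorial * ∏ p ∈ ps w, (1 - nu u v p / p) ^ k := by
    intro u hu v hv
    rw [mem_Icc] at hu hv
    have hg : ((GG w H u ∩ GG w H v).card : ℝ) ≤ 2 * (H + 1) * ∏ p ∈ ps w, (1 - nu u v p / p) := by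
      have := cntR {u - 1, v - 1} hH (GG w H u ∩ GG w H v) (fun a ha => by
        unfold GG at ha
        rw [mem_inter, mem_filter, mem_filter, mem_range] at ha
        refine ⟨by omega, fun t ht p hp => ?_⟩
        rw [mem_insert, mem_singleton] at ht
        rcases ht with rfl | rfl
        · have e : u - 1 + 1 + a = u + a := by omega
          rw [e]
          exact ha.1.2 p hp
        · have e : v - 1 + 1 + a = v + a := by omega
          rw [e]
          exact ha.2.2 p hp)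
      refine this.trans (mul_le_mul_of_nonneg_left ?_ (by positivity))
      unfold VV
      apply prod_le_prod (fun p _ => fac_nonneg _ p)
      intro p hp
      have hp0 : (0 : ℝ) < p := by exact_mod_cast (ps_pr hp).pos
      have h5 := rho_pair (u - 1) (v - 1) (ps_pr hp)
      have h6 : nu (u - 1) (v - 1) p = nu u v p := by
        unfold nu
        have e1 : u - 1 - (v - 1) = u - v := by omega
        have e2 : v - 1 - (u - 1) = v - u := by omega
        rw [e1, e2]
      rw [h6] at h5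
      have := div_le_div_of_nonneg_right h5 hp0.le
      linarith
    refine (choose_le _ k hg).trans (le_of_eq ?_)
    rw [mul_pow, prod_pow]
    ring
  have h4 : ∑ T ∈ Pk k H, (cc w T : ℝ) ^ 2 ≤ ∑ u ∈ Icc 1 (2 * MM w),
      (2 * ((H : ℝ) + 1)) ^ k / k.factorial * (3 * MM w * ∏ p ∈ ps w, (be k p + (al k p - be k p) / p)) := by
    rw [h2]
    apply sum_le_sum
    intro u hu
    refine (sum_le_sum (h3 u hu)).trans ?_
    rw [← mul_sum]
    exact mul_le_mul_of_nonneg_left (sum_second k w u) (by positivity)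
  rw [sum_const, nsmul_eq_mul, Nat.card_Icc] at h4
  have h5 : (MM w : ℝ) ^ 2 * ∑ T ∈ Pk k H, VV (QR Rs T) w ^ 2 ≤ (MM w : ℝ) ^ 2 *
      (6 * (2 * ((H : ℝ) + 1)) ^ k / k.factorial * ∏ p ∈ ps w, (be k p + (al k p - be k p) / p)) := by
    refine h1.trans (h4.trans (le_of_eq ?_))
    have : 2 * MM w + 1 - 1 = 2 * MM w := by omega
    rw [this]
    push_cast
    ring
  refine (le_of_mul_le_mul_left h5 (by positivity)).trans ?_
  exact mul_le_mul_of_nonneg_left (prod_second k w hw) (by positivity)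

/-- admissible sets -/
def Adm (T : Finset ℕ) : Prop := ∀ p : ℕ, p.Prime → ∃ n : ℕ, ∀ a ∈ T, ¬ p ∣ n + a

lemma Adm.rho_lt {T : Finset ℕ} (h : Adm T) {p : ℕ} (hp : p.Prime) : rho (QR Rs T) p < p := by
  apply Pool.Agent.Y822.G.rho_lt (perQ T) hp.pos
  obtain ⟨n, hn⟩ := h p hp
  refine ⟨n, ?_⟩
  rintro ⟨a, ha, hd⟩
  exact hn a ha hd

lemma MM_le (w : ℕ) : MM w ≤ 4 ^ w := by
  refine le_trans (le_of_eq ?_) (primorial_le_four_pow w)
  unfold MM ps primorial
  have : (Icc 1 w).filter Nat.Prime = (range (w + 1)).filter Nat.Prime := by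
    ext p
    rw [mem_filter, mem_filter, mem_Icc, mem_range]
    constructor
    · rintro ⟨h1, h2⟩
      exact ⟨by omega, h2⟩
    · rintro ⟨h1, h2⟩
      exact ⟨⟨h2.one_lt.le, by omega⟩, h2⟩
  rw [this]

/-- the number of the admissible sets -/
lemma adm_le (k H : ℕ) (hH : MM (k + 2) ≤ H + 1) [DecidablePred Adm] :
    (((Pk k H).filter Adm).card : ℝ) ≤
      32 * (8 * (H + 1) * Real.exp (-RR (k + 2))) ^ k / k.factorial := by
  have hM : (0 : ℝ) < MM (k + 2) := by exact_mod_cast MM_pos _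
  have h1 : ∀ T ∈ (Pk k H).filter Adm, (1 : ℝ) ≤ MM (k + 2) * VV (QR Rs T) (k + 2) := by
    intro T hT
    have hadm := (mem_filter.1 hT).2
    unfold MM VV
    push_cast
    rw [← prod_mul_distrib]
    calc (1 : ℝ) = ∏ _p ∈ ps (k + 2), (1 : ℝ) := by rw [prod_const_one]
      _ ≤ _ := by
        apply prod_le_prod (fun _ _ => zero_le_one)
        intro p hp
        have hp0 : (0 : ℝ) < p := by exact_mod_cast (ps_pr hp).pos
        have := hadm.rho_lt (ps_pr hp)
        have h2 : (rho (QR Rs T) p : ℝ) + 1 ≤ p := by exact_mod_cast this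
        rw [mul_sub, mul_one, mul_div_cancel₀ _ hp0.ne']
        linarith
  have h2 : (((Pk k H).filter Adm).card : ℝ) ≤ MM (k + 2) * ∑ T ∈ Pk k H, VV (QR Rs T) (k + 2) := by
    calc (((Pk k H).filter Adm).card : ℝ) = ∑ _T ∈ (Pk k H).filter Adm, (1 : ℝ) := by
          rw [sum_const, nsmul_eq_mul, mul_one]
      _ ≤ ∑ T ∈ (Pk k H).filter Adm, MM (k + 2) * VV (QR Rs T) (k + 2) := sum_le_sum h1
      _ ≤ ∑ T ∈ Pk k H, MM (k + 2) * VV (QR Rs T) (k + 2) := by
          apply sum_le_sum_of_subset_of_nonneg (filter_subset _ _)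
          intro T _ _
          exact mul_nonneg hM.le (VV_nonneg _ _)
      _ = _ := by rw [← mul_sum]
  have h3 := mom1 k H (k + 2) hH
  have h4 : (MM (k + 2) : ℝ) ≤ 16 * 4 ^ k := by
    have := MM_le (k + 2)
    have h5 : (MM (k + 2) : ℝ) ≤ ((4 ^ (k + 2) : ℕ) : ℝ) := by exact_mod_cast this
    refine h5.trans (le_of_eq ?_)
    push_cast
    rw [pow_add]
    ring
  have h0 : 0 ≤ ∑ T ∈ Pk k H, VV (QR Rs T) (k + 2) := sum_nonneg fun T _ => VV_nonneg _ _
  calc (((Pk k H).filter Adm).card : ℝ) ≤ MM (k + 2) * ∑ T ∈ Pk k H, VV (QR Rs T) (k + 2) := h2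
    _ ≤ (16 * 4 ^ k) * (2 * (2 * (H + 1) * Real.exp (-RR (k + 2))) ^ k / k.factorial) :=
        mul_le_mul h4 h3 h0 (by positivity)
    _ = _ := by
        have e : 8 * ((H : ℝ) + 1) * Real.exp (-RR (k + 2)) = 4 * (2 * (H + 1) * Real.exp (-RR (k + 2))) := by ring
        rw [e, mul_pow 4]
        ring

end Pool.Agent.V1137.UK
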