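import Pool.Agent.V1137.UK.D

/-! Uniform prime tuples: the number of pairs `(n, T)` with `n + T` prime, from below. -/

set_option autoImplicit false

namespace Pool.Agent.V1137.UK

open Finset Filter Pool.Agent.Y822.G

open Classical in
/-- the number of the `n ∈ (k, x]` with `n + T` prime -/
noncomputable def NN (k x : ℕ) (T : Finset ℕ) : ℕ := ((Ioc k x).filter (fun n => ∀ a ∈ T, (n + a).Prime)).card

open Classical in
/-- the primes in the window of `n` -/
noncomputable def PP (H n : ℕ) : Finset ℕ := (range (H + 1)).filter (fun a => (n + a).Prime)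

lemma PP_sub (H n : ℕ) : PP H n ⊆ range (H + 1) := by
  unfold PP
  exact filter_subset _ _

lemma NN_sum (k H x : ℕ) : ∑ T ∈ Pk k H, (NN k x T : ℝ) = ∑ n ∈ Ioc k x, (((PP H n).card.choose k : ℕ) : ℝ) := by
  classical
  have e1 : ∀ T ∈ Pk k H, (NN k x T : ℝ) = ∑ n ∈ Ioc k x, if T ⊆ PP H n then (1 : ℝ) else 0 := by
    intro T hT
    unfold NN
    rw [card_filter]
    push_cast
    apply sum_congr rfl
    intro n _
    have hsub := (mem_powersetCard.1 hT).1
    have : (∀ a ∈ T, (n + a).Prime) ↔ T ⊆ PP H n := by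
      unfold PP
      constructor
      · intro h a ha
        rw [mem_filter]
        exact ⟨hsub ha, h a ha⟩
      · intro h a ha
        exact (mem_filter.1 (h ha)).2
    by_cases h : T ⊆ PP H n
    · rw [if_pos h, if_pos (this.2 h)]
    · rw [if_neg h, if_neg fun h' => h (this.1 h')]
  rw [sum_congr rfl e1, sum_comm]
  apply sum_congr rfl
  intro n _
  rw [← sum_filter, sum_const, nsmul_eq_mul, mul_one, card_sub k H (PP H n) (PP_sub H n)]

/-- Chebyshev -/
lemma cheb : ∀ᶠ x : ℕ in atTop, (x : ℝ) / (2 * Real.log x) ≤ Nat.primeCounting x := by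
  have tN : Tendsto (fun N : ℕ => (N : ℝ)) atTop atTop := tendsto_natCast_atTop_atTop
  have tL : Tendsto (fun N : ℕ => Real.log (N : ℝ)) atTop atTop := Real.tendsto_log_atTop.comp tN
  have h0 : Tendsto (fun N : ℕ => Real.log (N : ℝ) / (N : ℝ)) atTop (nhds 0) := by
    have := (Real.isLittleO_log_id_atTop.tendsto_div_nhds_zero).comp tN
    exact this
  filter_upwards [tL.eventually_ge_atTop 1, h0.eventually (gt_mem_nhds (show (0 : ℝ) < 1 / 100 by norm_num)),
    tN.eventually_ge_atTop 100] with x h1 h2 h3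
  have hx0 : (0 : ℝ) < x := by linarith
  have h4 := Chebyshev.psi_ge x
  have h5 := Chebyshev.psi_le_primeCounting_mul_log x
  rw [div_lt_iff₀ hx0] at h2
  have h6 : Real.log ((x : ℝ) + 1) ≤ Real.log x + 1 := by
    have e : (x : ℝ) + 1 = x * (1 + 1 / x) := by field_simp
    rw [e, Real.log_mul hx0.ne' (by positivity)]
    have := Real.log_le_sub_one_of_pos (show (0 : ℝ) < 1 + 1 / x by positivity)
    have h7 : (1 : ℝ) / x ≤ 1 := by rw [div_le_one hx0]; linarith
    linarith
  have h8 := Real.log_two_gt_d9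
  rw [div_le_iff₀ (by positivity)]
  nlinarith

/-- the primes in `(k, x] + a` -/
lemma shift_count (k x a : ℕ) [DecidablePred fun n => (n + a).Prime] :
    (Nat.primeCounting x : ℝ) - k - a ≤ ((Ioc k x).filter (fun n => (n + a).Prime)).card := by
  classical
  have h1 : Nat.primeCounting x ≤ (k + a) + ((Ioc k x).filter (fun n => (n + a).Prime)).card := by
    have e : Nat.primeCounting x = ((Ioc 0 x).filter Nat.Prime).card := by
      rw [Nat.primeCounting, Nat.primeCounting', Nat.count_eq_card_filter_range]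
      congr 1
      ext p
      rw [mem_filter, mem_filter, mem_range, mem_Ioc]
      constructor
      · rintro ⟨h1, h2⟩
        exact ⟨⟨h2.pos, by omega⟩, h2⟩
      · rintro ⟨h1, h2⟩
        exact ⟨by omega, h2⟩
    rw [e]
    have h2 : (Ioc 0 x).filter Nat.Prime ⊆
        Ioc 0 (k + a) ∪ ((Ioc k x).filter (fun n => (n + a).Prime)).image (fun n => n + a) := by
      intro p hp
      rw [mem_filter, mem_Ioc] at hp
      rw [mem_union, mem_Ioc, mem_image]
      by_cases h : p ≤ k + a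
      · left; exact ⟨hp.1.1, h⟩
      · right
        refine ⟨p - a, ?_, by omega⟩
        rw [mem_filter, mem_Ioc]
        have e : p - a + a = p := by omega
        rw [e]
        exact ⟨⟨by omega, by omega⟩, hp.2⟩
    refine (card_le_card h2).trans ((card_union_le _ _).trans ?_)
    rw [Nat.card_Ioc]
    have := card_image_le (s := (Ioc k x).filter (fun n => (n + a).Prime)) (f := fun n => n + a)
    omega
  have h2 : (Nat.primeCounting x : ℝ) ≤ (k + a) + ((Ioc k x).filter (fun n => (n + a).Prime)).card := by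
    exact_mod_cast h1
  linarith

/-- **the number of pairs from below** -/
lemma pairs_ge (j H x : ℕ) {L : ℝ} (hL : 0 < L) (hcheb : (x : ℝ) / (2 * L) ≤ Nat.primeCounting x)
    (hH : ((j + 1 : ℕ) : ℝ) + H ≤ x / (4 * L)) (hk : ((j + 1 : ℕ) : ℝ) ≤ (H + 1) / (8 * L)) (hx : 1 ≤ x) :
    (x : ℝ) * ((H + 1) / (8 * L)) ^ (j + 1) / (j + 1).factorial ≤ ∑ T ∈ Pk (j + 1) H, (NN (j + 1) x T : ℝ) := by
  classical
  obtain ⟨k, hkj⟩ : ∃ k, k = j + 1 := ⟨_, rfl⟩
  rw [← hkj] at hH hk
  have hx0 : (0 : ℝ) < x := by exact_mod_cast hx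
  have hH0 : (0 : ℝ) ≤ H := Nat.cast_nonneg H
  have h1 : ((H : ℝ) + 1) * (x / (4 * L)) ≤ ∑ n ∈ Ioc k x, ((PP H n).card : ℝ) := by
    have e1 : ∑ n ∈ Ioc k x, ((PP H n).card : ℝ) =
        ∑ a ∈ range (H + 1), (((Ioc k x).filter (fun n => (n + a).Prime)).card : ℝ) := by
      unfold PP
      simp_rw [card_filter]
      push_cast
      rw [sum_comm]
    rw [e1]
    calc ((H : ℝ) + 1) * (x / (4 * L)) = ∑ _a ∈ range (H + 1), (x / (4 * L) : ℝ) := by
          rw [sum_const, card_range, nsmul_eq_mul]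
          push_cast
          ring
      _ ≤ _ := by
          apply sum_le_sum
          intro a ha
          rw [mem_range] at ha
          have ha' : (a : ℝ) ≤ H := by exact_mod_cast (by omega : a ≤ H)
          have h2 := shift_count k x a
          have h3 : (x : ℝ) / (2 * L) = x / (4 * L) + x / (4 * L) := by field_simp; ring
          linarith
  have h2 : ((H : ℝ) + 1) * x / (8 * L) ≤ ∑ n ∈ Ioc k x, (((PP H n).card + 1 - k : ℕ) : ℝ) := by
    have e1 : ∀ n ∈ Ioc k x, ((PP H n).card : ℝ) - k ≤ (((PP H n).card + 1 - k : ℕ) : ℝ) := by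
      intro n _
      have : (PP H n).card ≤ ((PP H n).card + 1 - k : ℕ) + k := by omega
      have h3 : ((PP H n).card : ℝ) ≤ (((PP H n).card + 1 - k : ℕ) : ℝ) + k := by exact_mod_cast this
      linarith
    have e2 := sum_le_sum e1
    rw [sum_sub_distrib, sum_const, nsmul_eq_mul, Nat.card_Ioc] at e2
    have e3 : ((x - k : ℕ) : ℝ) * k ≤ x * ((H + 1) / (8 * L)) := by
      apply mul_le_mul _ hk (Nat.cast_nonneg _) hx0.le
      exact_mod_cast Nat.sub_le _ _
    have e4 : ((H : ℝ) + 1) * (x / (4 * L)) = ((H : ℝ) + 1) * x / (8 * L) + x * ((H + 1) / (8 * L)) := by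
      field_simp
      ring
    linarith
  rw [← hkj, NN_sum]
  have h3 : ∀ n ∈ Ioc k x, (((PP H n).card + 1 - k : ℕ) : ℝ) ^ k / k.factorial ≤
      (((PP H n).card.choose k : ℕ) : ℝ) := fun n _ => Nat.pow_le_choose k _
  refine le_trans ?_ (sum_le_sum h3)
  rw [← sum_div]
  apply div_le_div_of_nonneg_right _ (by positivity)
  obtain ⟨S, hS⟩ : ∃ S : ℝ, S = ∑ n ∈ Ioc k x, (((PP H n).card + 1 - k : ℕ) : ℝ) := ⟨_, rfl⟩
  have h4 := pow_sum_le_card_mul_sum_pow (s := Ioc k x) (f := fun n => (((PP H n).card + 1 - k : ℕ) : ℝ))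
    (fun n _ => Nat.cast_nonneg _) j
  rw [← hS, Nat.card_Ioc, ← hkj] at h4
  rw [← hS] at h2
  have hS0 : 0 ≤ ((H : ℝ) + 1) * x / (8 * L) := by positivity
  have h5 : (((H : ℝ) + 1) * x / (8 * L)) ^ k ≤ S ^ k := pow_le_pow_left₀ hS0 h2 _
  have h6 : (x : ℝ) ^ j * ((x : ℝ) * ((H + 1) / (8 * L)) ^ k) = (((H : ℝ) + 1) * x / (8 * L)) ^ k := by
    have : ((H : ℝ) + 1) * x / (8 * L) = ((H + 1) / (8 * L)) * x := by ring
    rw [this, mul_pow ((H + 1) / (8 * L) : ℝ) (x : ℝ), hkj, pow_succ (x : ℝ) j]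
    ring
  have h7 : (((x - k : ℕ) : ℝ)) ^ j ≤ (x : ℝ) ^ j := by
    apply pow_le_pow_left₀ (Nat.cast_nonneg _)
    exact_mod_cast Nat.sub_le _ _
  have h8 : (x : ℝ) ^ j * ((x : ℝ) * ((H + 1) / (8 * L)) ^ k) ≤
      (x : ℝ) ^ j * ∑ n ∈ Ioc k x, (((PP H n).card + 1 - k : ℕ) : ℝ) ^ k := by
    rw [h6]
    refine h5.trans (h4.trans ?_)
    exact mul_le_mul_of_nonneg_right h7 (sum_nonneg fun n _ => by positivity)
  exact le_of_mul_le_mul_left h8 (by positivity)

end Pool.Agent.V1137.UK
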