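import Pool.Agent.V1137.UK.E

/-! Uniform prime tuples: a positive proportion (to the power `k`) of the admissible sets. -/

set_option autoImplicit false

namespace Pool.Agent.V1137.UK

open Finset Filter Pool.Agent.Y822.G

lemma NN_le_sft (k x z : ℕ) (T : Finset ℕ) : (NN k x T : ℝ) ≤ z + sft (QR Rs T) z x := by
  classical
  have h1 : NN k x T ≤ z + sft (QR Rs T) z x := by
    unfold NN sft
    have h2 : (Ioc k x).filter (fun n => ∀ a ∈ T, (n + a).Prime) ⊆
        Icc 1 z ∪ (Icc 1 x).filter (fun n => ∀ p ∈ ps z, ¬ QR Rs T p n) := by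
      intro n hn
      rw [mem_filter, mem_Ioc] at hn
      rw [mem_union, mem_Icc, mem_filter, mem_Icc]
      by_cases h : n ≤ z
      · left; omega
      · right
        refine ⟨by omega, ?_⟩
        rintro p hp ⟨a, ha, hd⟩
        rw [mem_ps] at hp
        have h3 := hn.2 a ha
        have h4 := (Nat.prime_dvd_prime_iff_eq hp.1 h3).1 hd
        omega
    refine (card_le_card h2).trans ((card_union_le _ _).trans ?_)
    rw [Nat.card_Icc]
    omega
  exact_mod_cast h1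

lemma adm_of_small {T : Finset ℕ} {k : ℕ} (hT : T.card = k) (h : ∀ p : ℕ, p.Prime → p ≤ k → ∃ n : ℕ, ∀ a ∈ T, ¬ p ∣ n + a) :
    Adm T := by
  classical
  intro p hp
  by_cases hpk : p ≤ k
  · exact h p hp hpk
  · by_contra hcon
    push Not at hcon
    have h1 : rho (QR Rs T) p ≤ ∑ a ∈ T, rho (Rs a) p := Pool.Agent.Y77.GL.rho_QR_le Rs T p
    have h2 : ∑ a ∈ T, rho (Rs a) p ≤ ∑ _a ∈ T, 1 := sum_le_sum fun a _ => rho_Rs a p hp
    rw [sum_const, hT, smul_eq_mul, mul_one] at h2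
    have h3 : rho (QR Rs T) p = p := by
      unfold rho
      rw [filter_true_of_mem, card_range]
      intro r _
      obtain ⟨a, ha, hd⟩ := hcon r
      exact ⟨a, ha, hd⟩
    omega

lemma NN_adm {k x : ℕ} {T : Finset ℕ} (hT : T.card = k) (h : 0 < NN k x T) : Adm T := by
  classical
  unfold NN at h
  obtain ⟨n, hn⟩ := card_pos.1 h
  rw [mem_filter, mem_Ioc] at hn
  refine adm_of_small hT fun p hp hpk => ⟨n, fun a ha hd => ?_⟩
  have h3 := hn.2 a ha
  have h4 := (Nat.prime_dvd_prime_iff_eq hp h3).1 hd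
  omega

open Classical in
/-- the number of the `n ≤ x` with `n + T` prime -/
noncomputable def N1 (x : ℕ) (T : Finset ℕ) : ℕ := ((Icc 1 x).filter (fun n => ∀ a ∈ T, (n + a).Prime)).card

lemma NN_le_N1 (k x : ℕ) (T : Finset ℕ) : NN k x T ≤ N1 x T := by
  unfold NN N1
  apply card_le_card
  intro n hn
  rw [mem_filter, mem_Ioc] at hn
  rw [mem_filter, mem_Icc]
  exact ⟨by omega, hn.2⟩

lemma NN_le_x (k x : ℕ) (T : Finset ℕ) : NN k x T ≤ x := by
  unfold NN
  refine (card_filter_le _ _).trans ?_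
  rw [Nat.card_Ioc]
  omega

open Classical in
/-- the sets with many `n` -/
noncomputable def QQ (k H x : ℕ) (θ : ℝ) : Finset (Finset ℕ) :=
  (Pk k H).filter (fun T => Adm T ∧ θ ≤ N1 x T)

/-- the sets outside `QQ` contribute little -/
lemma outside (k H x : ℕ) {θ : ℝ} (hθ : 0 ≤ θ) :
    ∑ T ∈ Pk k H, (NN k x T : ℝ) ≤ ∑ T ∈ QQ k H x θ, (NN k x T : ℝ) + θ * (H + 1).choose k := by
  classical
  unfold QQ
  rw [← sum_filter_add_sum_filter_not (Pk k H) (fun T => Adm T ∧ θ ≤ N1 x T)]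
  apply add_le_add le_rfl
  calc ∑ T ∈ (Pk k H).filter (fun T => ¬ (Adm T ∧ θ ≤ N1 x T)), (NN k x T : ℝ)
      ≤ ∑ _T ∈ (Pk k H).filter (fun T => ¬ (Adm T ∧ θ ≤ N1 x T)), θ := by
        apply sum_le_sum
        intro T hT
        rw [mem_filter] at hT
        by_cases h : 0 < NN k x T
        · have hadm := NN_adm (mem_Pk.1 hT.1).2 h
          by_contra hcon
          push Not at hcon
          apply hT.2
          refine ⟨hadm, ?_⟩
          have : (NN k x T : ℝ) ≤ N1 x T := by exact_mod_cast NN_le_N1 k x T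
          linarith
        · have : NN k x T = 0 := by omega
          rw [this, Nat.cast_zero]
          exact hθ
    _ ≤ ∑ _T ∈ Pk k H, θ := sum_le_sum_of_subset_of_nonneg (filter_subset _ _) fun _ _ _ => hθ
    _ = _ := by rw [sum_const, nsmul_eq_mul, card_Pk]; ring

/-- the threshold -/
lemma theta_small (j H x : ℕ) {L c : ℝ} (hL : 0 < L) (hc : 0 ≤ c) (hc32 : c ≤ 1 / 32) :
    ((c / L) ^ (j + 1) * x) * ((H + 1).choose (j + 1) : ℝ) ≤
      (1 / 4) * ((x : ℝ) * ((H + 1) / (8 * L)) ^ (j + 1) / (j + 1).factorial) := by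
  have h1 := choose_le (H + 1) (j + 1) (B := (H : ℝ) + 1) (by push_cast; exact le_rfl)
  have h2 : (c / L) ^ (j + 1) ≤ (1 / 4) * (1 / (8 * L)) ^ (j + 1) := by
    have h3 : c / L ≤ (1 / 4) * (1 / (8 * L)) := by
      rw [div_le_iff₀ hL]
      have : 1 / 4 * (1 / (8 * L)) * L = 1 / 32 := by field_simp; norm_num
      rw [this]
      exact hc32
    calc (c / L) ^ (j + 1) ≤ ((1 / 4) * (1 / (8 * L))) ^ (j + 1) := pow_le_pow_left₀ (by positivity) h3 _
      _ = (1 / 4) ^ (j + 1) * (1 / (8 * L)) ^ (j + 1) := mul_pow _ _ _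
      _ ≤ (1 / 4) * (1 / (8 * L)) ^ (j + 1) := by
          apply mul_le_mul_of_nonneg_right _ (by positivity)
          rw [pow_succ]
          exact mul_le_of_le_one_left (by norm_num) (pow_le_one₀ (by norm_num) (by norm_num))
  have hx0 : (0 : ℝ) ≤ x := Nat.cast_nonneg x
  calc ((c / L) ^ (j + 1) * x) * ((H + 1).choose (j + 1) : ℝ)
      ≤ ((1 / 4) * (1 / (8 * L)) ^ (j + 1) * x) * (((H : ℝ) + 1) ^ (j + 1) / (j + 1).factorial) := by
        apply mul_le_mul (mul_le_mul_of_nonneg_right h2 hx0) h1 (Nat.cast_nonneg _) (by positivity)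
    _ = _ := by
        have : ((H : ℝ) + 1) / (8 * L) = (1 / (8 * L)) * (H + 1) := by ring
        rw [this, mul_pow (1 / (8 * L)) ((H : ℝ) + 1)]
        ring

/-- the algebra at the end of the first part -/
lemma final_alg {k : ℕ} (hk : 1 ≤ k) {F A Q S M c₂ E h LL ℓ e : ℝ} (hF : 0 < F) (hc₂ : 0 < c₂) (hE : 0 < E)
    (hh : 0 < h) (hLL : 0 < LL) (hℓ : 0 < ℓ) (he : 1 ≤ e) (hQ : 0 ≤ Q)
    (h1 : (1 / 2) * (c₂ * h / LL) ^ k / F ≤ S) (h2 : S ^ 2 ≤ Q * M)
    (h3 : M ≤ 6 * e * (8 * E ^ 3 * h * ℓ / LL ^ 2) ^ k / F) (h4 : A ≤ 32 * (8 * h * E / ℓ) ^ k / F) :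
    (c₂ ^ 2 / (64 * E ^ 4) / (768 * e)) ^ k * A ≤ Q := by
  have he0 : 0 < e := by linarith
  set P : ℝ := (8 * E ^ 3 * h * ℓ / LL ^ 2) ^ k with hP
  have hP0 : 0 < P := by positivity
  set R : ℝ := (c₂ ^ 2 * h / (8 * E ^ 3 * ℓ)) ^ k with hR
  have hR0 : 0 < R := by positivity
  have e1 : (c₂ * h / LL) ^ k * (c₂ * h / LL) ^ k = P * R := by
    rw [hP, hR, ← mul_pow, ← mul_pow]
    congr 1
    field_simp
  have h5 : (1 / 4) * (P * R) / F ^ 2 ≤ Q * (6 * e * P / F) := by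
    calc (1 / 4) * (P * R) / F ^ 2 = ((1 / 2) * (c₂ * h / LL) ^ k / F) ^ 2 := by
          rw [← e1]
          field_simp
          ring
      _ ≤ S ^ 2 := pow_le_pow_left₀ (by positivity) h1 2
      _ ≤ Q * M := h2
      _ ≤ _ := mul_le_mul_of_nonneg_left h3 hQ
  have h6 : R / F ≤ 24 * e * Q := by
    have h7 : (P / (4 * F)) * (R / F) ≤ (P / (4 * F)) * (24 * e * Q) := by
      calc (P / (4 * F)) * (R / F) = (1 / 4) * (P * R) / F ^ 2 := by field_simp
        _ ≤ Q * (6 * e * P / F) := h5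
        _ = _ := by field_simp; ring
    exact le_of_mul_le_mul_left h7 (by positivity)
  have h8 : (c₂ ^ 2 / (64 * E ^ 4)) ^ k * (8 * h * E / ℓ) ^ k = R := by
    rw [hR, ← mul_pow]
    congr 1
    field_simp
    ring
  have h9 : (c₂ ^ 2 / (64 * E ^ 4) / (768 * e)) ^ k ≤ (c₂ ^ 2 / (64 * E ^ 4)) ^ k / (768 * e) := by
    rw [div_pow]
    apply div_le_div_of_nonneg_left (by positivity) (by positivity)
    exact le_self_pow₀ (by linarith) (by omega)
  calc (c₂ ^ 2 / (64 * E ^ 4) / (768 * e)) ^ k * A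
      ≤ (c₂ ^ 2 / (64 * E ^ 4)) ^ k / (768 * e) * (32 * (8 * h * E / ℓ) ^ k / F) :=
        (mul_le_mul_of_nonneg_left h4 (by positivity)).trans (mul_le_mul_of_nonneg_right h9 (by positivity))
    _ = 32 / (768 * e) * (R / F) := by rw [← h8]; ring
    _ ≤ 32 / (768 * e) * (24 * e * Q) := mul_le_mul_of_nonneg_left h6 (by positivity)
    _ = Q := by field_simp; norm_num

end Pool.Agent.V1137.UK
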