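import Pool.Agent.V1137.UK.F

/-! Uniform prime tuples: the first part. -/

set_option autoImplicit false

namespace Pool.Agent.V1137.UK

open Finset Filter Pool.Agent.Y822.G
open Pool.Agent.Y822 (ev_logN ev_pow_exp)

lemma rpow_exp {x : ℕ} (hx : 0 < x) (s : ℝ) : (x : ℝ) ^ s = Real.exp (s * Real.log x) := by
  rw [Real.rpow_def_of_pos (by exact_mod_cast hx), mul_comm]

/-- the numerical facts -/
structure Facts (δ δ₁ B : ℝ) (x : ℕ) : Prop where
  x3 : 3 ≤ x
  L0 : 1 ≤ Real.log x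
  sq : (B + 8) / (1 - δ) ≤ Real.sqrt (Real.log x)
  LL : 1 ≤ Real.log (Real.log x)
  ch : (x : ℝ) / (2 * Real.log x) ≤ Nat.primeCounting x
  e6 : 16 * Real.log x ^ 1 ≤ Real.exp (δ * Real.log x)
  e7 : 16 * Real.log x ^ 2 ≤ Real.exp ((1 - δ) * Real.log x)
  e9 : 3 * Real.log x ^ 2 ≤ Real.exp (δ₁ * Real.log x)

lemma facts (δ δ₁ B : ℝ) (hδ : 0 < δ) (hδ1 : δ < 1) (hδ₁ : 0 < δ₁) : ∀ᶠ x : ℕ in atTop, Facts δ δ₁ B x := by
  have tN : Tendsto (fun N : ℕ => (N : ℝ)) atTop atTop := tendsto_natCast_atTop_atTop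
  have tL : Tendsto (fun N : ℕ => Real.log (N : ℝ)) atTop atTop := Real.tendsto_log_atTop.comp tN
  filter_upwards [eventually_ge_atTop 3, tL.eventually_ge_atTop 1,
    (Real.tendsto_sqrt_atTop.comp tL).eventually_ge_atTop ((B + 8) / (1 - δ)),
    (Real.tendsto_log_atTop.comp tL).eventually_ge_atTop 1, cheb, ev_logN (ev_pow_exp 1 δ 16 hδ),
    ev_logN (ev_pow_exp 2 (1 - δ) 16 (by linarith)), ev_logN (ev_pow_exp 2 δ₁ 3 hδ₁)]
    with x h1 h2 h3 h4 h5 h6 h7 h8
  exact ⟨h1, h2, h3, h4, h5, h6, h7, h8⟩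

/-- the range of the shifts -/
lemma H_bounds {δ δ₁ B : ℝ} {x : ℕ} (hδ : 0 < δ) (hδ1 : δ < 1) (hF : Facts δ δ₁ B x) {H : ℕ}
    (hH : H = ⌊(x : ℝ) ^ (1 - δ)⌋₊) :
    Real.exp ((1 - δ) * Real.log x) ≤ (H : ℝ) + 1 ∧ (H : ℝ) ≤ x / (16 * Real.log x) ∧ H ≤ x := by
  have hx0 : 0 < x := by have := hF.x3; omega
  have hx0' : (0 : ℝ) < x := by exact_mod_cast hx0
  have hL := hF.L0
  have h1 : (H : ℝ) ≤ Real.exp ((1 - δ) * Real.log x) := by
    rw [hH, ← rpow_exp hx0]
    exact Nat.floor_le (by positivity)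
  have h2 : Real.exp ((1 - δ) * Real.log x) ≤ (H : ℝ) + 1 := by
    rw [hH, ← rpow_exp hx0]
    exact (Nat.lt_floor_add_one _).le
  have h3 : (H : ℝ) ≤ x / (16 * Real.log x) := by
    rw [le_div_iff₀ (by positivity)]
    calc (H : ℝ) * (16 * Real.log x) ≤ Real.exp ((1 - δ) * Real.log x) * Real.exp (δ * Real.log x) := by
          apply mul_le_mul h1 (by simpa using hF.e6) (by positivity) (Real.exp_pos _).le
      _ = x := by
          rw [← Real.exp_add]
          have : (1 - δ) * Real.log x + δ * Real.log x = Real.log x := by ring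
          rw [this, Real.exp_log hx0']
  refine ⟨h2, h3, ?_⟩
  have h4 : (H : ℝ) ≤ x := h3.trans (div_le_self hx0'.le (by linarith))
  exact_mod_cast h4

/-- the lower bound for the number of pairs, all parameters -/
lemma pairs_facts {δ δ₁ B : ℝ} {x : ℕ} (hδ : 0 < δ) (hδ1 : δ < 1) (hF : Facts δ δ₁ B x) {H : ℕ}
    (hH : H = ⌊(x : ℝ) ^ (1 - δ)⌋₊) {j : ℕ} (hk : ((j + 1 : ℕ) : ℝ) ≤ Real.log x) :
    (x : ℝ) * ((H + 1) / (8 * Real.log x)) ^ (j + 1) / (j + 1).factorial ≤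
      ∑ T ∈ Pk (j + 1) H, (NN (j + 1) x T : ℝ) := by
  obtain ⟨h1, h2, -⟩ := H_bounds hδ hδ1 hF hH
  have hL := hF.L0
  have hx3 := hF.x3
  have hx0 : (0 : ℝ) < x := by exact_mod_cast (by omega : 0 < x)
  have e7 := hF.e7
  refine pairs_ge j H x (by linarith) hF.ch ?_ ?_ (by omega)
  · have h3 : Real.log x ≤ x / (16 * Real.log x) := by
      rw [le_div_iff₀ (by positivity)]
      have h4 : Real.exp ((1 - δ) * Real.log x) ≤ x := by
        calc _ ≤ Real.exp (Real.log x) := Real.exp_le_exp.2 (by nlinarith)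
          _ = x := Real.exp_log hx0
      nlinarith
    have h5 : (x : ℝ) / (4 * Real.log x) = 4 * (x / (16 * Real.log x)) := by
      field_simp
      norm_num
    rw [h5]
    have : (0 : ℝ) ≤ x / (16 * Real.log x) := by positivity
    linarith
  · refine hk.trans ?_
    rw [le_div_iff₀ (by positivity)]
    nlinarith

open Classical in
theorem part1 (δ : ℝ) (hδ : 0 < δ) (hδ1 : δ < 1) : ∃ c : ℝ, 0 < c ∧ ∃ c₀ : ℝ, 0 < c₀ ∧
    ∀ c' : ℝ, 0 < c' → c' ≤ c → ∀ᶠ x : ℕ in atTop, ∀ k : ℕ, 1 ≤ k →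
    ((k : ℝ) * Real.log (Real.log x)) ^ 2 ≤ c₀ * Real.log x →
    c ^ k * (((Pk k ⌊(x : ℝ) ^ (1 - δ)⌋₊).filter Adm).card : ℝ) ≤
      ((QQ k ⌊(x : ℝ) ^ (1 - δ)⌋₊ x ((c' / Real.log x) ^ k * x)).card : ℝ) := by
  obtain ⟨δ₁, hδ₁, hδ8, c₁, hc₁, B, N₀, FIN⟩ := fin2 1 2 1 le_rfl 1 one_pos le_rfl
  obtain ⟨C, hC, hVV⟩ := VV_bound
  obtain ⟨C₀, hC₀, hM⟩ := mert
  obtain ⟨E, hE⟩ : ∃ E : ℝ, E = Real.exp C₀ := ⟨_, rfl⟩
  have hE0 : 0 < E := by rw [hE]; exact Real.exp_pos _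
  obtain ⟨c₂, hc₂⟩ : ∃ c₂ : ℝ, c₂ = δ₁ / (32 * C) := ⟨_, rfl⟩
  have hc₂0 : 0 < c₂ := by rw [hc₂]; positivity
  have he1 : 1 ≤ Real.exp 4 := Real.one_le_exp (by norm_num)
  obtain ⟨c₄, hc₄⟩ : ∃ c₄ : ℝ, c₄ = c₂ ^ 2 / (64 * E ^ 4) / (768 * Real.exp 4) := ⟨_, rfl⟩
  have hc₄0 : 0 < c₄ := by rw [hc₄]; positivity
  refine ⟨min c₄ (1 / 32), lt_min hc₄0 (by norm_num), min c₁ 1, lt_min hc₁ one_pos, fun c' hc'0 hc' => ?_⟩
  filter_upwards [facts δ δ₁ B hδ hδ1 hδ₁, eventually_ge_atTop N₀, hVV] with x hF hN₀ hVx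
  intro k hk hkx
  obtain ⟨j, rfl⟩ : ∃ j, k = j + 1 := ⟨k - 1, by omega⟩
  obtain ⟨H, hH⟩ : ∃ H : ℕ, H = ⌊(x : ℝ) ^ (1 - δ)⌋₊ := ⟨_, rfl⟩
  obtain ⟨h1, h2, h3⟩ := H_bounds hδ hδ1 hF hH
  rw [← hH]
  obtain ⟨L, hL⟩ : ∃ L : ℝ, L = Real.log (x : ℝ) := ⟨_, rfl⟩
  have hL1 := hF.L0
  have hLL1 := hF.LL
  have hsq := hF.sq
  have e7 := hF.e7
  have e9 := hF.e9
  have hkx1 := hkx.trans (mul_le_mul_of_nonneg_right (min_le_left c₁ 1) (by linarith))
  have hkx2 := hkx.trans (mul_le_mul_of_nonneg_right (min_le_right c₁ 1) (by linarith))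
  rw [← hL] at hL1 hLL1 hsq e7 e9 hkx2 h1 h2 ⊢
  have hx3 := hF.x3
  have hx0n : 0 < x := by omega
  have hx0 : (0 : ℝ) < x := by exact_mod_cast hx0n
  have hL0 : 0 < L := by linarith
  obtain ⟨LL, hLL⟩ : ∃ LL : ℝ, LL = Real.log L := ⟨_, rfl⟩
  rw [← hLL] at hLL1 hkx2
  have hLL0 : 0 < LL := by linarith
  rw [one_mul] at hkx2
  obtain ⟨h, hh⟩ : ∃ h : ℝ, h = (H : ℝ) + 1 := ⟨_, rfl⟩
  rw [← hh] at h1
  have hh0 : 0 < h := lt_of_lt_of_le (Real.exp_pos _) h1
  set k := j + 1 with hkj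
  have hk1 : (1 : ℝ) ≤ k := by exact_mod_cast hk
  have hk0 : (0 : ℝ) < k := by linarith
  -- `t = k LL ≤ √L`
  have ht : (k : ℝ) * LL ≤ Real.sqrt L := Real.le_sqrt_of_sq_le hkx2
  have hkt : (k : ℝ) ≤ k * LL := le_mul_of_one_le_right hk0.le hLL1
  have hs1 : 1 ≤ Real.sqrt L := hk1.trans (hkt.trans ht)
  have hss : Real.sqrt L * Real.sqrt L = L := Real.mul_self_sqrt hL0.le
  have hsL : Real.sqrt L ≤ L := by nlinarith
  have hkL : (k : ℝ) ≤ L := (hkt.trans ht).trans hsL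
  have h1δ : 0 < 1 - δ := by linarith
  have hB0 : (0 : ℝ) ≤ B := Nat.cast_nonneg B
  have hB8 : (B + 8) * Real.sqrt L ≤ (1 - δ) * L := by
    rw [div_le_iff₀ h1δ] at hsq
    calc (B + 8) * Real.sqrt L ≤ (Real.sqrt L * (1 - δ)) * Real.sqrt L :=
          mul_le_mul_of_nonneg_right hsq (by linarith)
      _ = (1 - δ) * (Real.sqrt L * Real.sqrt L) := by ring
      _ = (1 - δ) * L := by rw [hss]
  -- the parameter `w`
  obtain ⟨w, hw⟩ : ∃ w : ℕ, w = ⌊(1 - δ) / 2 * L⌋₊ := ⟨_, rfl⟩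
  have hw1 : (w : ℝ) ≤ (1 - δ) / 2 * L := by rw [hw]; exact Nat.floor_le (by positivity)
  have hw2 : (1 - δ) / 2 * L < w + 1 := by rw [hw]; exact Nat.lt_floor_add_one _
  have hw3 : Real.sqrt L + 2 ≤ w := by nlinarith
  have hkw : k + 2 ≤ w := by
    have : ((k + 2 : ℕ) : ℝ) ≤ w := by push_cast; linarith
    exact_mod_cast this
  have hMw : MM w ≤ H + 1 := by
    have h4 : ((MM w : ℕ) : ℝ) ≤ ((H + 1 : ℕ) : ℝ) := by
      calc ((MM w : ℕ) : ℝ) ≤ ((4 ^ w : ℕ) : ℝ) := by exact_mod_cast MM_le w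
        _ = (4 : ℝ) ^ w := by push_cast; rfl
        _ ≤ (Real.exp 2) ^ w := by
            apply pow_le_pow_left₀ (by norm_num)
            have h3 := Real.exp_one_gt_d9
            have h4 : Real.exp 2 = Real.exp 1 ^ 2 := by rw [← Real.exp_nat_mul]; norm_num
            rw [h4]
            calc (4 : ℝ) ≤ 2.7182818283 ^ 2 := by norm_num
              _ ≤ _ := by gcongr
        _ = Real.exp (w * 2) := by rw [← Real.exp_nat_mul]
        _ ≤ Real.exp ((1 - δ) * L) := Real.exp_le_exp.2 (by linarith)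
        _ ≤ h := h1
        _ = ((H + 1 : ℕ) : ℝ) := by rw [hh]; push_cast; rfl
    exact_mod_cast h4
  have hMk : MM (k + 2) ≤ H + 1 := by
    refine le_trans ?_ hMw
    unfold MM
    apply Nat.le_of_dvd (prod_pos fun _ hp => (ps_pr hp).pos)
    apply prod_dvd_prod_of_subset
    intro p hp
    rw [mem_ps] at hp ⊢
    exact ⟨hp.1, hp.2.trans hkw⟩
  have hlw : LL / 2 ≤ Real.log w := by
    have h4 : Real.log (Real.sqrt L) ≤ Real.log w := Real.log_le_log (by linarith) (by linarith)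
    rw [Real.log_sqrt hL0.le, ← hLL] at h4
    exact h4
  -- the parameter `z`
  obtain ⟨z, hz⟩ : ∃ z : ℕ, z = ⌊(x : ℝ) ^ δ₁⌋₊ := ⟨_, rfl⟩
  have hz1 : Real.exp (δ₁ * L) < z + 1 := by
    rw [hz, rpow_exp hx0n, ← hL]
    exact Nat.lt_floor_add_one _
  have hYz : YY x ≤ z := by
    have h4 : ((YY x : ℕ) : ℝ) < L ^ 2 + 1 := by
      unfold YY
      rw [← hL]
      exact Nat.ceil_lt_add_one (by positivity)
    have h5 : ((YY x : ℕ) : ℝ) < z + 1 := by nlinarith
    have h6 : YY x < z + 1 := by exact_mod_cast h5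
    omega
  have hwY : w ≤ YY x := by
    have h4 : L ^ 2 ≤ ((YY x : ℕ) : ℝ) := by
      unfold YY
      rw [← hL]
      exact Nat.le_ceil _
    have h5 : (w : ℝ) ≤ YY x := by nlinarith
    exact_mod_cast h5
  have hlz : δ₁ * L / 2 ≤ Real.log z := by
    have h4 : Real.exp (δ₁ * L / 2) ≤ z := by
      have h5 : Real.exp (δ₁ * L) = Real.exp (δ₁ * L / 2) * Real.exp (δ₁ * L / 2) := by
        rw [← Real.exp_add]; congr 1; ring
      have h6 : (3 : ℝ) ≤ Real.exp (δ₁ * L) := by nlinarith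
      have h7 : 1 ≤ Real.exp (δ₁ * L / 2) := Real.one_le_exp (by positivity)
      have h8 : (1.7 : ℝ) ≤ Real.exp (δ₁ * L / 2) := by
        by_contra hcon
        push Not at hcon
        nlinarith
      nlinarith
    rw [Real.le_log_iff_exp_le (lt_of_lt_of_le (Real.exp_pos _) h4)]
    exact h4
  have hlz0 : 0 < Real.log z := lt_of_lt_of_le (by positivity) hlz
  -- the bad sets
  obtain ⟨Bad, hBad⟩ : ∃ Bad : Finset (Finset ℕ), Bad = (Pk k H).filter (fun T => Adm T ∧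
      ¬ ((1 - 1) ^ k * (x * VV (QR Rs T) z) ≤ (sft (QR Rs T) z x : ℝ) ∧
        (sft (QR Rs T) z x : ℝ) + ((1 * k * (2 * z + 1) : ℕ) : ℝ) ≤ (1 + 1) ^ k * (x * VV (QR Rs T) z))) := ⟨_, rfl⟩
  have hBc : (Bad.card : ℝ) ≤ (H + 1).choose j * L ^ (B * k) := by
    have h4 := FIN x hN₀ k hk hkx1 ℕ Rs (range (H + 1)) (fam _ (fun a ha => by
      rw [mem_range] at ha; omega) (by omega)) Bad (fun T hT => by
        rw [hBad, mem_filter] at hT
        refine ⟨hT.1, fun p hp => hT.2.1.rho_lt hp, ?_⟩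
        rw [← hz]
        exact hT.2.2)
    rw [card_range, ← hL] at h4
    exact h4
  obtain ⟨A0, hA0⟩ : ∃ A0 : ℝ, A0 = (x : ℝ) * (h / (8 * L)) ^ k / k.factorial := ⟨_, rfl⟩
  have hf : (0 : ℝ) < k.factorial := by exact_mod_cast Nat.factorial_pos k
  have hbad : (x : ℝ) * Bad.card ≤ (1 / 4) * A0 := by
    have h4 : ((H + 1).choose j : ℝ) ≤ h ^ j / j.factorial := choose_le (H + 1) j (by rw [hh]; push_cast; exact le_rfl)
    have h5 : 4 * (k : ℝ) * (8 * L) ^ k * L ^ (B * k) ≤ h := by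
      have g1 : 4 * (k : ℝ) ≤ Real.exp (2 * k) := by
        have := Real.add_one_le_exp (k : ℝ)
        have e : Real.exp (2 * (k : ℝ)) = Real.exp k * Real.exp k := by rw [← Real.exp_add]; congr 1; ring
        rw [e]
        nlinarith [sq_nonneg ((k : ℝ) - 1)]
      have g2 : (8 : ℝ) ^ k ≤ Real.exp (3 * k) := by
        have : (8 : ℝ) ≤ Real.exp 3 := by
          have h3 := Real.exp_one_gt_d9
          have h4 : Real.exp 3 = Real.exp 1 ^ 3 := by rw [← Real.exp_nat_mul]; norm_num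
          rw [h4]
          calc (8 : ℝ) ≤ 2.7182818283 ^ 3 := by norm_num
            _ ≤ _ := by gcongr
        calc (8 : ℝ) ^ k ≤ Real.exp 3 ^ k := pow_le_pow_left₀ (by norm_num) this _
          _ = Real.exp (3 * k) := by rw [← Real.exp_nat_mul]; congr 1; ring
      have g3 : L ^ k * L ^ (B * k) = Real.exp ((B + 1) * (k * LL)) := by
        rw [← pow_add, ← Real.exp_log hL0, ← hLL, ← Real.exp_nat_mul]
        congr 1
        push_cast
        ring
      calc 4 * (k : ℝ) * (8 * L) ^ k * L ^ (B * k) = (4 * k) * 8 ^ k * (L ^ k * L ^ (B * k)) := by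
            rw [mul_pow]; ring
        _ ≤ Real.exp (2 * k) * Real.exp (3 * k) * Real.exp ((B + 1) * (k * LL)) := by
            rw [g3]
            apply mul_le_mul_of_nonneg_right _ (Real.exp_pos _).le
            exact mul_le_mul g1 g2 (by positivity) (Real.exp_pos _).le
        _ = Real.exp (5 * k + (B + 1) * (k * LL)) := by
            rw [← Real.exp_add, ← Real.exp_add]; congr 1; ring
        _ ≤ Real.exp ((1 - δ) * L) := by
            apply Real.exp_le_exp.2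
            have g4 : (B + 1) * (k * LL) ≤ (B + 1) * Real.sqrt L := mul_le_mul_of_nonneg_left ht (by linarith)
            nlinarith
        _ ≤ h := h1
    have h6 : (k.factorial : ℝ) = k * j.factorial := by
      rw [hkj, Nat.factorial_succ]
      push_cast
      ring
    have hjf : (0 : ℝ) < j.factorial := by exact_mod_cast Nat.factorial_pos j
    have h7 : (Bad.card : ℝ) ≤ (1 / 4) * ((h / (8 * L)) ^ k / k.factorial) := by
      calc (Bad.card : ℝ) ≤ (H + 1).choose j * L ^ (B * k) := hBc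
        _ ≤ h ^ j / j.factorial * L ^ (B * k) := mul_le_mul_of_nonneg_right h4 (by positivity)
        _ = (h ^ j * (4 * (k : ℝ) * (8 * L) ^ k * L ^ (B * k))) / (4 * (8 * L) ^ k * (k * j.factorial)) := by
            field_simp
        _ ≤ (h ^ j * h) / (4 * (8 * L) ^ k * (k * j.factorial)) := by
            apply div_le_div_of_nonneg_right _ (by positivity)
            exact mul_le_mul_of_nonneg_left h5 (by positivity)
        _ = (1 / 4) * ((h / (8 * L)) ^ k / k.factorial) := by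
            rw [h6, div_pow, hkj, pow_succ h j]
            field_simp
    calc (x : ℝ) * Bad.card ≤ x * ((1 / 4) * ((h / (8 * L)) ^ k / k.factorial)) :=
          mul_le_mul_of_nonneg_left h7 hx0.le
      _ = _ := by rw [hA0]; ring
  -- the sums
  obtain ⟨θ, hθ⟩ : ∃ θ : ℝ, θ = (c' / L) ^ k * x := ⟨_, rfl⟩
  rw [← hθ]
  have hθ0 : 0 ≤ θ := by rw [hθ]; positivity
  have hpairs : A0 ≤ ∑ T ∈ Pk k H, (NN k x T : ℝ) := by
    have := pairs_facts hδ hδ1 hF hH (j := j) (by rw [← hL]; exact hkL)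
    rw [← hL, ← hkj, ← hh, ← hA0] at this
    exact this
  have hout := outside k H x hθ0
  have hth : θ * (H + 1).choose k ≤ (1 / 4) * A0 := by
    have := theta_small j H x (L := L) (c := c') hL0 hc'0.le (hc'.trans (min_le_right _ _))
    rw [← hkj, ← hh, ← hA0, ← hθ] at this
    exact this
  obtain ⟨S, hS⟩ : ∃ S : ℝ, S = ∑ T ∈ QQ k H x θ, VV (QR Rs T) w := ⟨_, rfl⟩
  have hS0 : 0 ≤ S := by rw [hS]; exact sum_nonneg fun T _ => VV_nonneg _ _
  have hgood : ∑ T ∈ QQ k H x θ, (NN k x T : ℝ) ≤ x * Bad.card + x * (4 * C * LL / (δ₁ * L)) ^ k * S := by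
    have g1 : ∀ T ∈ QQ k H x θ, (NN k x T : ℝ) ≤
        (if T ∈ Bad then (x : ℝ) else 0) + x * (4 * C * LL / (δ₁ * L)) ^ k * VV (QR Rs T) w := by
      intro T hT
      unfold QQ at hT
      rw [mem_filter] at hT
      have hTk := mem_Pk.1 hT.1
      have hVw := VV_nonneg (QR Rs T) w
      by_cases hB : T ∈ Bad
      · rw [if_pos hB]
        have : (NN k x T : ℝ) ≤ x := by exact_mod_cast NN_le_x k x T
        have : 0 ≤ x * (4 * C * LL / (δ₁ * L)) ^ k * VV (QR Rs T) w := by positivity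
        linarith
      · rw [if_neg hB, zero_add]
        rw [hBad, mem_filter] at hB
        have g2 : (sft (QR Rs T) z x : ℝ) + ((1 * k * (2 * z + 1) : ℕ) : ℝ) ≤ (1 + 1) ^ k * (x * VV (QR Rs T) z) := by
          by_contra hcon
          exact hB ⟨hT.1, hT.2.1, fun h' => hcon h'.2⟩
        have g3 := NN_le_sft k x z T
        have g4 : (z : ℝ) ≤ ((1 * k * (2 * z + 1) : ℕ) : ℝ) := by
          have : z ≤ 1 * k * (2 * z + 1) := by nlinarith
          exact_mod_cast this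
        have g5 := hVx T (fun a ha => (hTk.1 a ha).trans h3) (by rw [hTk.2, ← hL]; exact hkL) w z hwY hYz
        rw [hTk.2, ← hL, ← hLL] at g5
        have g6 : (C * LL / Real.log z) ^ k ≤ (2 * C * LL / (δ₁ * L)) ^ k := by
          apply pow_le_pow_left₀ (by positivity)
          calc C * LL / Real.log z ≤ C * LL / (δ₁ * L / 2) :=
                div_le_div_of_nonneg_left (by positivity) (by positivity) hlz
            _ = _ := by field_simp
        calc (NN k x T : ℝ) ≤ (1 + 1) ^ k * (x * VV (QR Rs T) z) := by linarith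
          _ ≤ (1 + 1) ^ k * (x * (VV (QR Rs T) w * (2 * C * LL / (δ₁ * L)) ^ k)) := by
              apply mul_le_mul_of_nonneg_left _ (by positivity)
              apply mul_le_mul_of_nonneg_left _ hx0.le
              exact g5.trans (mul_le_mul_of_nonneg_left g6 hVw)
          _ = _ := by
              have : 4 * C * LL / (δ₁ * L) = (1 + 1) * (2 * C * LL / (δ₁ * L)) := by ring
              rw [this, mul_pow (1 + 1 : ℝ)]
              ring
    refine (sum_le_sum g1).trans ?_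
    rw [sum_add_distrib, ← mul_sum, ← hS]
    apply add_le_add _ le_rfl
    rw [← sum_filter, sum_const, nsmul_eq_mul, mul_comm]
    apply mul_le_mul_of_nonneg_left _ hx0.le
    have : (QQ k H x θ).filter (fun T => T ∈ Bad) ⊆ Bad := fun T hT => (mem_filter.1 hT).2
    exact_mod_cast card_le_card this
  have hhalf : (1 / 2) * A0 ≤ x * (4 * C * LL / (δ₁ * L)) ^ k * S := by linarith
  have hSlow : (1 / 2) * (c₂ * h / LL) ^ k / k.factorial ≤ S := by
    have g1 : A0 = x * (4 * C * LL / (δ₁ * L)) ^ k * ((c₂ * h / LL) ^ k / k.factorial) := by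
      have : h / (8 * L) = (4 * C * LL / (δ₁ * L)) * (c₂ * h / LL) := by
        rw [hc₂]
        field_simp
        norm_num
      rw [hA0, this, mul_pow (4 * C * LL / (δ₁ * L))]
      ring
    rw [g1] at hhalf
    have hD : 0 < x * (4 * C * LL / (δ₁ * L)) ^ k := by positivity
    have g2 : x * (4 * C * LL / (δ₁ * L)) ^ k * ((1 / 2) * (c₂ * h / LL) ^ k / k.factorial) ≤
        x * (4 * C * LL / (δ₁ * L)) ^ k * S := by
      refine le_trans (le_of_eq (by ring)) hhalf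
    exact le_of_mul_le_mul_left g2 hD
  -- Cauchy-Schwarz
  obtain ⟨M, hMd⟩ : ∃ M : ℝ, M = ∑ T ∈ Pk k H, VV (QR Rs T) w ^ 2 := ⟨_, rfl⟩
  have hCS : S ^ 2 ≤ (QQ k H x θ).card * M := by
    rw [hS]
    refine (sq_sum_le_card_mul_sum_sq).trans ?_
    apply mul_le_mul_of_nonneg_left _ (Nat.cast_nonneg _)
    rw [hMd]
    apply sum_le_sum_of_subset_of_nonneg
    · unfold QQ
      exact filter_subset _ _
    · intro T _ _
      positivity
  obtain ⟨ℓ, hℓ⟩ : ∃ ℓ : ℝ, ℓ = Real.log ((k + 2 : ℕ) : ℝ) := ⟨_, rfl⟩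
  have hℓ0 : 0 < ℓ := by
    rw [hℓ]
    apply Real.log_pos
    push_cast
    linarith
  have m1 := (abs_le.1 (hM w (by omega))).1
  have m2 := (abs_le.1 (hM (k + 2) (by omega)))
  rw [← hℓ] at m2
  have hllw : Real.log (LL / 2) ≤ Real.log (Real.log w) := Real.log_le_log (by linarith) hlw
  have hM2 : M ≤ 6 * Real.exp 4 * (8 * E ^ 3 * h * ℓ / LL ^ 2) ^ k / k.factorial := by
    have g1 := mom2 k H w hMw hkw
    rw [← hMd, ← hh] at g1
    have g2 : Real.exp (4 - 2 * k * RR w + k * RR (k + 2)) ≤ Real.exp 4 * (4 * E ^ 3 * ℓ / LL ^ 2) ^ k := by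
      have a1 : Real.exp (-(2 * Real.log (LL / 2))) = 4 / LL ^ 2 := by
        have a0 : 2 * Real.log (LL / 2) = Real.log ((LL / 2) ^ 2) := by
          rw [Real.log_pow]
          push_cast
          ring
        rw [a0, Real.exp_neg, Real.exp_log (by positivity)]
        field_simp
        norm_num
      have a2 : Real.exp (3 * C₀) = E ^ 3 := by
        rw [hE, ← Real.exp_nat_mul]
        push_cast
        rfl
      have e1 : 4 * E ^ 3 * ℓ / LL ^ 2 = Real.exp (-(2 * Real.log (LL / 2)) + 3 * C₀ + Real.log ℓ) := by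
        rw [Real.exp_add, Real.exp_add, Real.exp_log hℓ0, a1, a2]
        ring
      rw [e1, ← Real.exp_nat_mul, ← Real.exp_add]
      apply Real.exp_le_exp.2
      have g3 : (k : ℝ) * (-(2 * RR w) + RR (k + 2)) ≤ k * (-(2 * Real.log (LL / 2)) + 3 * C₀ + Real.log ℓ) :=
        mul_le_mul_of_nonneg_left (by linarith [m2.2]) hk0.le
      linarith
    calc M ≤ 6 * (2 * h) ^ k / k.factorial * Real.exp (4 - 2 * k * RR w + k * RR (k + 2)) := g1
      _ ≤ 6 * (2 * h) ^ k / k.factorial * (Real.exp 4 * (4 * E ^ 3 * ℓ / LL ^ 2) ^ k) :=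
          mul_le_mul_of_nonneg_left g2 (by positivity)
      _ = _ := by
          have : 8 * E ^ 3 * h * ℓ / LL ^ 2 = (2 * h) * (4 * E ^ 3 * ℓ / LL ^ 2) := by ring
          rw [this, mul_pow (2 * h)]
          ring
  have hAdm : (((Pk k H).filter Adm).card : ℝ) ≤ 32 * (8 * h * E / ℓ) ^ k / k.factorial := by
    have g1 := adm_le k H hMk
    rw [← hh] at g1
    refine g1.trans ?_
    apply div_le_div_of_nonneg_right _ hf.le
    apply mul_le_mul_of_nonneg_left _ (by norm_num)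
    apply pow_le_pow_left₀ (by positivity)
    rw [mul_div_assoc]
    apply mul_le_mul_of_nonneg_left _ (by positivity)
    have g2 : E / ℓ = Real.exp (C₀ - Real.log ℓ) := by rw [Real.exp_sub, Real.exp_log hℓ0, hE]
    rw [g2]
    apply Real.exp_le_exp.2
    linarith [m2.1]
  have := final_alg hk hf hc₂0 hE0 hh0 hLL0 hℓ0 he1 (Nat.cast_nonneg _) hSlow hCS hM2 hAdm
  rw [← hc₄] at this
  refine le_trans (mul_le_mul_of_nonneg_right ?_ (Nat.cast_nonneg _)) this
  exact pow_le_pow_left₀ (lt_min hc₄0 (by norm_num)).le (min_le_left _ _) _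

end Pool.Agent.V1137.UK
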