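import Pool.Agent.V1137.UK.G
import Pool.Agent.Y388.GL.Brun

/-! Uniform prime tuples: the second part (the full range of `k`). -/

set_option autoImplicit false

namespace Pool.Agent.V1137.UK

open Finset Filter Pool.Agent.Y822.G
open Pool.Agent.Y822 (ev_logN ev_pow_exp)

lemma rho_le_card (T : Finset ℕ) {p : ℕ} (hp : p.Prime) : rho (QR Rs T) p ≤ T.card := by
  have h1 : rho (QR Rs T) p ≤ ∑ a ∈ T, rho (Rs a) p := Pool.Agent.Y77.GL.rho_QR_le Rs T p
  have h2 : ∑ a ∈ T, rho (Rs a) p ≤ ∑ _a ∈ T, 1 := sum_le_sum fun a _ => rho_Rs a p hp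
  rw [sum_const, smul_eq_mul, mul_one] at h2
  exact h1.trans h2

open Classical in
theorem part2 (δ : ℝ) (hδ : 0 < δ) (hδ1 : δ < 1) : ∃ c : ℝ, 0 < c ∧
    ∀ c' : ℝ, 0 < c' → c' ≤ c → ∀ᶠ x : ℕ in atTop, ∀ k : ℕ, 1 ≤ k →
    (k : ℝ) * Real.log (Real.log x) ^ 2 ≤ c * Real.log x →
    (c / (k * Real.log (Real.log x) ^ 2)) ^ k * ((⌊(x : ℝ) ^ (1 - δ)⌋₊ + 1).choose k : ℝ) ≤
      ((QQ k ⌊(x : ℝ) ^ (1 - δ)⌋₊ x ((c' / Real.log x) ^ k * x)).card : ℝ) := by
  obtain ⟨κ₀, hκ₀, N₀, HB⟩ := Pool.Agent.Y388.GL.brun 1 1 le_rfl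
  obtain ⟨C, hC, hVV⟩ := VV_bound
  obtain ⟨κ, hκ⟩ : ∃ κ : ℝ, κ = min κ₀ 1 := ⟨_, rfl⟩
  have hκ0 : 0 < κ := by rw [hκ]; exact lt_min hκ₀ one_pos
  have hκ1 : κ ≤ 1 := by rw [hκ]; exact min_le_right _ _
  have hκκ : κ ≤ κ₀ := by rw [hκ]; exact min_le_left _ _
  obtain ⟨C', hC'⟩ : ∃ C' : ℝ, C' = 2 * C / κ + 1 := ⟨_, rfl⟩
  have hC'0 : 0 < C' := by rw [hC']; positivity
  have hC'1 : 1 ≤ C' := by
    rw [hC']
    have : 0 < 2 * C / κ := by positivity
    linarith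
  have hcpos : 0 < min (κ / 8) (1 / (32 * C')) := lt_min (by positivity) (by positivity)
  refine ⟨min (κ / 8) (1 / (32 * C')), hcpos, fun c' hc'0 hc' => ?_⟩
  have tN : Tendsto (fun N : ℕ => (N : ℝ)) atTop atTop := tendsto_natCast_atTop_atTop
  have tL : Tendsto (fun N : ℕ => Real.log (N : ℝ)) atTop atTop := Real.tendsto_log_atTop.comp tN
  filter_upwards [facts δ 1 0 hδ hδ1 one_pos, eventually_ge_atTop N₀, hVV,
    (Real.tendsto_log_atTop.comp tL).eventually_ge_atTop 2] with x hF hN₀ hVx hLL2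
  simp only [Function.comp] at hLL2
  intro k hk hkx
  obtain ⟨j, rfl⟩ : ∃ j, k = j + 1 := ⟨k - 1, by omega⟩
  obtain ⟨H, hH⟩ : ∃ H : ℕ, H = ⌊(x : ℝ) ^ (1 - δ)⌋₊ := ⟨_, rfl⟩
  obtain ⟨h1, -, h3⟩ := H_bounds hδ hδ1 hF hH
  rw [← hH]
  have hL1 := hF.L0
  obtain ⟨L, hL⟩ : ∃ L : ℝ, L = Real.log (x : ℝ) := ⟨_, rfl⟩
  obtain ⟨LL, hLL⟩ : ∃ LL : ℝ, LL = Real.log L := ⟨_, rfl⟩
  have hx3 := hF.x3
  have hx0 : (0 : ℝ) < x := by exact_mod_cast (by omega : 0 < x)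
  have hk1 : (1 : ℝ) ≤ ((j + 1 : ℕ) : ℝ) := by exact_mod_cast hk
  rw [← hL] at hL1 hLL2 hkx h1 ⊢
  rw [← hLL] at hLL2 hkx ⊢
  set k := j + 1 with hkj
  have hL0 : 0 < L := by linarith
  have hLL0 : 0 < LL := by linarith
  have hk0 : (0 : ℝ) < k := by linarith
  have hf : (0 : ℝ) < k.factorial := by exact_mod_cast Nat.factorial_pos k
  have hk8 : (k : ℝ) * LL ^ 2 ≤ κ / 8 * L := hkx.trans (mul_le_mul_of_nonneg_right (min_le_left _ _) hL0.le)
  obtain ⟨ℓ, hℓ⟩ : ∃ ℓ : ℝ, ℓ = k * LL := ⟨_, rfl⟩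
  have hℓ0 : 0 < ℓ := by rw [hℓ]; positivity
  have hℓLL : ℓ * LL ≤ κ / 8 * L := by
    calc ℓ * LL = k * LL ^ 2 := by rw [hℓ]; ring
      _ ≤ _ := hk8
  have hℓL : ℓ ≤ κ / 8 * L := (le_mul_of_one_le_right hℓ0.le (by linarith)).trans hℓLL
  have hkℓ : (k : ℝ) ≤ ℓ := by rw [hℓ]; exact le_mul_of_one_le_right hk0.le (by linarith)
  have hκL : κ / 8 * L ≤ L := by
    have : κ / 8 ≤ 1 := by linarith
    nlinarith
  have hkL : (k : ℝ) ≤ L := hkℓ.trans (hℓL.trans hκL)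
  have hℓ2 : 2 ≤ ℓ := by
    rw [hℓ]
    have := mul_le_mul hk1 hLL2 (by norm_num) hk0.le
    linarith
  -- the parameter `y`
  have h8 : 8 * LL ≤ κ * L / ℓ := by
    rw [le_div_iff₀ hℓ0]
    linarith
  obtain ⟨y, hy⟩ : ∃ y : ℕ, y = yl κ ℓ x := ⟨_, rfl⟩
  have hy1 : (y : ℝ) ≤ Real.exp (κ * L / ℓ) := by rw [hy, hL]; exact yl_le κ ℓ x
  have hy2 : Real.exp (κ * L / ℓ / 2) ≤ y := by
    rw [hy, hL]
    apply le_yl
    rw [← hL]
    linarith
  have hy0 : (0 : ℝ) < y := lt_of_lt_of_le (Real.exp_pos _) hy2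
  have hly : κ * L / (2 * ℓ) ≤ Real.log y := by
    rw [Real.le_log_iff_exp_le hy0]
    refine le_trans (le_of_eq ?_) hy2
    congr 1
    field_simp
  have hly0 : 0 < Real.log y := lt_of_lt_of_le (by positivity) hly
  have hYy : YY x ≤ y := by
    have g1 : ((YY x : ℕ) : ℝ) < L ^ 2 + 1 := by
      unfold YY
      rw [← hL]
      exact Nat.ceil_lt_add_one (by positivity)
    have g2 : L ^ 4 ≤ y := by
      refine le_trans ?_ hy2
      have : L ^ 4 = Real.exp (4 * LL) := by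
        rw [show (4 : ℝ) * LL = ((4 : ℕ) : ℝ) * LL by norm_num, Real.exp_nat_mul, hLL, Real.exp_log hL0]
      rw [this]
      exact Real.exp_le_exp.2 (by linarith)
    have g3 : L ^ 2 + 1 ≤ L ^ 4 := by
      have g4 : (2 : ℝ) ≤ L := by
        have := Real.log_le_sub_one_of_pos hL0
        rw [← hLL] at this
        linarith
      have g5 : (4 : ℝ) ≤ L ^ 2 := by nlinarith
      have g6 : L ^ 4 = L ^ 2 * L ^ 2 := by ring
      rw [g6]
      nlinarith
    have g4 : ((YY x : ℕ) : ℝ) ≤ y := by linarith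
    exact_mod_cast g4
  -- the bound for all sets
  have hNN : ∀ T ∈ Pk k H, (NN k x T : ℝ) ≤ 3 * x * (C' * (k * LL ^ 2) / L) ^ k := by
    intro T hT
    have hTk := mem_Pk.1 hT
    have g1 := NN_le_sft k x y T
    have g2 := HB x hN₀ κ ℓ k hκ0 hκκ hk (by rw [← hL, ← hLL, hℓ]) (by
      rw [← hL]
      calc ℓ ≤ κ / 8 * L := hℓL
        _ ≤ κ₀ * L := mul_le_mul_of_nonneg_right (by linarith) hL0.le) y (by rw [← hL]; exact hy1) (QR Rs T)
      (perQ T) (fun p hp => by rw [one_mul, ← hTk.2]; exact rho_le_card T hp)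
    have g3 := (abs_le.1 g2).2
    have g4 := hVx T (fun a ha => (hTk.1 a ha).trans h3) (by rw [hTk.2, ← hL]; exact hkL) 0 y (Nat.zero_le _) hYy
    rw [hTk.2, ← hL, ← hLL] at g4
    have g5 : VV (QR Rs T) y ≤ (C' * (k * LL ^ 2) / L) ^ k := by
      refine g4.trans ((mul_le_of_le_one_left (by positivity) (VV_le_one _ _)).trans ?_)
      apply pow_le_pow_left₀ (by positivity)
      calc C * LL / Real.log y ≤ C * LL / (κ * L / (2 * ℓ)) :=
            div_le_div_of_nonneg_left (by positivity) (by positivity) hly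
        _ = (2 * C / κ) * (k * LL ^ 2) / L := by rw [hℓ]; field_simp
        _ ≤ C' * (k * LL ^ 2) / L := by
            apply div_le_div_of_nonneg_right _ hL0.le
            apply mul_le_mul_of_nonneg_right _ (by positivity)
            rw [hC']
            linarith
    have g6 : Real.exp (-(((1 : ℕ) : ℝ) * ℓ)) ≤ (C' * (k * LL ^ 2) / L) ^ k := by
      have e1 : Real.exp (-(((1 : ℕ) : ℝ) * ℓ)) = (1 / L) ^ k := by
        rw [Nat.cast_one, one_mul, hℓ, one_div, inv_pow, Real.exp_neg, Real.exp_nat_mul, hLL, Real.exp_log hL0]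
      rw [e1]
      apply pow_le_pow_left₀ (by positivity)
      apply div_le_div_of_nonneg_right _ hL0.le
      have e2 : (1 : ℝ) ≤ k * LL ^ 2 := by nlinarith
      nlinarith
    have g7 : (y : ℝ) ≤ x * Real.exp (-(((1 : ℕ) : ℝ) * ℓ)) := by
      refine hy1.trans ?_
      have e1 : (x : ℝ) * Real.exp (-(((1 : ℕ) : ℝ) * ℓ)) = Real.exp (L - ℓ) := by
        rw [Nat.cast_one, one_mul, sub_eq_add_neg, Real.exp_add, hL, Real.exp_log hx0]
      rw [e1]
      apply Real.exp_le_exp.2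
      have e2 : κ * L / ℓ ≤ L / 2 := by
        rw [div_le_iff₀ hℓ0]
        nlinarith
      have e3 : ℓ ≤ L / 2 := by
        have : κ / 8 * L ≤ 1 / 2 * L := mul_le_mul_of_nonneg_right (by linarith) hL0.le
        linarith
      linarith
    have g8 : (x : ℝ) * VV (QR Rs T) y ≤ x * (C' * (k * LL ^ 2) / L) ^ k := mul_le_mul_of_nonneg_left g5 hx0.le
    have g9 : (x : ℝ) * Real.exp (-(((1 : ℕ) : ℝ) * ℓ)) ≤ x * (C' * (k * LL ^ 2) / L) ^ k :=
      mul_le_mul_of_nonneg_left g6 hx0.le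
    rw [mul_assoc (3 : ℝ)]
    generalize (x : ℝ) * (C' * (k * LL ^ 2) / L) ^ k = D at g8 g9 ⊢
    generalize (x : ℝ) * Real.exp (-(((1 : ℕ) : ℝ) * ℓ)) = e at g3 g7 g9
    generalize (x : ℝ) * VV (QR Rs T) y = v at g3 g8
    linarith
  -- the sums
  obtain ⟨h, hh⟩ : ∃ h : ℝ, h = (H : ℝ) + 1 := ⟨_, rfl⟩
  have hh0 : 0 < h := by rw [hh]; positivity
  obtain ⟨A0, hA0⟩ : ∃ A0 : ℝ, A0 = (x : ℝ) * (h / (8 * L)) ^ k / k.factorial := ⟨_, rfl⟩
  have hA00 : 0 < A0 := by rw [hA0]; positivity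
  obtain ⟨θ, hθ⟩ : ∃ θ : ℝ, θ = (c' / L) ^ k * x := ⟨_, rfl⟩
  rw [← hθ]
  have hθ0 : 0 ≤ θ := by rw [hθ]; positivity
  have hpairs : A0 ≤ ∑ T ∈ Pk k H, (NN k x T : ℝ) := by
    have := pairs_facts hδ hδ1 hF hH (j := j) (by rw [← hL]; exact hkL)
    rw [← hL, ← hkj, ← hh, ← hA0] at this
    exact this
  have hout := outside k H x hθ0
  have hc32 : c' ≤ 1 / 32 := by
    refine hc'.trans ((min_le_right _ _).trans ?_)
    apply one_div_le_one_div_of_le (by norm_num)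
    linarith
  have hth : θ * (H + 1).choose k ≤ (1 / 4) * A0 := by
    have := theta_small j H x (L := L) (c := c') hL0 hc'0.le hc32
    rw [← hkj, ← hh, ← hA0, ← hθ] at this
    exact this
  have hsum : ∑ T ∈ QQ k H x θ, (NN k x T : ℝ) ≤ (QQ k H x θ).card * (3 * x * (C' * (k * LL ^ 2) / L) ^ k) := by
    rw [← nsmul_eq_mul, ← sum_const]
    apply sum_le_sum
    intro T hT
    unfold QQ at hT
    exact hNN T (mem_filter.1 hT).1
  have hmain : (1 / 4) * A0 ≤ (QQ k H x θ).card * (x * (C' * (k * LL ^ 2) / L) ^ k) := by linarith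
  -- the end
  obtain ⟨c, hc⟩ : ∃ c : ℝ, c = min (κ / 8) (1 / (32 * C')) := ⟨_, rfl⟩
  have hc0 : 0 < c := by rw [hc]; exact hcpos
  have hcC : c ≤ 1 / (32 * C') := by rw [hc]; exact min_le_right _ _
  rw [← hc]
  have e1 : ((H + 1).choose k : ℝ) ≤ h ^ k / k.factorial := choose_le (H + 1) k (by rw [hh]; push_cast; exact le_rfl)
  have e2 : c ^ k ≤ (1 / 4) * (1 / (8 * C')) ^ k := by
    calc c ^ k ≤ ((1 / 4) * (1 / (8 * C'))) ^ k := by
          apply pow_le_pow_left₀ hc0.le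
          refine hcC.trans (le_of_eq ?_)
          field_simp
          norm_num
      _ = (1 / 4) ^ k * (1 / (8 * C')) ^ k := mul_pow _ _ _
      _ ≤ _ := by
          apply mul_le_mul_of_nonneg_right _ (by positivity)
          rw [hkj, pow_succ]
          exact mul_le_of_le_one_left (by norm_num) (pow_le_one₀ (by norm_num) (by norm_num))
  have e3 : (c / (k * LL ^ 2)) ^ k * ((H + 1).choose k : ℝ) * (x * (C' * (k * LL ^ 2) / L) ^ k) ≤ (1 / 4) * A0 := by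
    calc (c / (k * LL ^ 2)) ^ k * ((H + 1).choose k : ℝ) * (x * (C' * (k * LL ^ 2) / L) ^ k)
        ≤ (c / (k * LL ^ 2)) ^ k * (h ^ k / k.factorial) * (x * (C' * (k * LL ^ 2) / L) ^ k) := by
          apply mul_le_mul_of_nonneg_right _ (by positivity)
          exact mul_le_mul_of_nonneg_left e1 (by positivity)
      _ = c ^ k * (x * (C' * h / L) ^ k / k.factorial) := by
          rw [div_pow, div_pow, mul_pow C', div_pow, mul_pow C' h]
          field_simp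
      _ ≤ ((1 / 4) * (1 / (8 * C')) ^ k) * (x * (C' * h / L) ^ k / k.factorial) :=
          mul_le_mul_of_nonneg_right e2 (by positivity)
      _ = (1 / 4) * A0 := by
          rw [hA0]
          have : h / (8 * L) = (1 / (8 * C')) * (C' * h / L) := by field_simp
          rw [this, mul_pow]
          ring
  have hD : 0 < x * (C' * (k * LL ^ 2) / L) ^ k := by positivity
  exact le_of_mul_le_mul_right (e3.trans hmain) hD

end Pool.Agent.V1137.UK
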