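import Pool.Agent.V1137.UK.H
import Pool.Agent.Helper601.BT

/-! Uniform prime tuples: the third part (too many shifts). -/

set_option autoImplicit false

namespace Pool.Agent.V1137.UK

open Finset Filter Pool.Agent.Y822.G
open Pool.Agent.Y822 (ev_logN ev_pow_exp)

/-- the density of the integers without small prime factors -/
lemma VV_zero_ge (k : ℕ) : Real.exp (-RR k - 2) ≤ VV (QR Rs {0}) k := by
  have h1 : ∑ p ∈ ps k, (1 / (p : ℝ) + 2 / (p : ℝ) ^ 2) ≤ RR k + 2 := by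
    rw [sum_add_distrib]
    have h2 : ∑ p ∈ ps k, 2 / (p : ℝ) ^ 2 ≤ 2 := by
      have h3 : ∑ p ∈ ps k, (1 : ℝ) / (p : ℝ) ^ 2 ≤ 1 / ((1 : ℕ) : ℝ) := by
        refine le_trans (sum_le_sum_of_subset_of_nonneg (t := Ioc 1 k) ?_ ?_) (sum_sq_tail le_rfl)
        · intro p hp
          rw [mem_ps] at hp
          rw [mem_Ioc]
          exact ⟨hp.1.one_lt, hp.2⟩
        · intro p _ _
          positivity
      have h4 : ∑ p ∈ ps k, 2 / (p : ℝ) ^ 2 = 2 * ∑ p ∈ ps k, (1 : ℝ) / (p : ℝ) ^ 2 := by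
        rw [mul_sum]
        exact sum_congr rfl fun p _ => by ring
      rw [h4]
      rw [Nat.cast_one, div_one] at h3
      linarith
    unfold RR
    linarith
  calc Real.exp (-RR k - 2) ≤ Real.exp (-∑ p ∈ ps k, (1 / (p : ℝ) + 2 / (p : ℝ) ^ 2)) :=
        Real.exp_le_exp.2 (by linarith)
    _ = ∏ p ∈ ps k, Real.exp (-(1 / (p : ℝ) + 2 / (p : ℝ) ^ 2)) := by
        rw [← sum_neg_distrib, Real.exp_sum]
    _ ≤ VV (QR Rs {0}) k := by
        unfold VV
        apply prod_le_prod (fun p _ => (Real.exp_pos _).le)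
        intro p hp
        have hpp := ps_pr hp
        have hp2 : (2 : ℝ) ≤ p := by exact_mod_cast hpp.two_le
        have hp0 : (0 : ℝ) < p := by linarith
        have h2 : (rho (QR Rs {0}) p : ℝ) ≤ 1 := by
          have := rho_le_card {0} hpp
          rw [card_singleton] at this
          exact_mod_cast this
        have h3 : 1 - 1 / (p : ℝ) ≤ 1 - (rho (QR Rs {0}) p : ℝ) / p := by
          have := div_le_div_of_nonneg_right h2 hp0.le
          linarith
        refine le_trans ?_ h3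
        -- exp (-(1/p + 2/p^2)) ≤ 1 - 1/p
        have hp1 : (0 : ℝ) < p - 1 := by linarith
        have h4 := Real.add_one_le_exp (1 / ((p : ℝ) - 1))
        have h5 : 1 / ((p : ℝ) - 1) ≤ 1 / p + 2 / p ^ 2 := by
          rw [div_add_div _ _ hp0.ne' (by positivity), div_le_div_iff₀ hp1 (by positivity)]
          nlinarith
        have h6 : (p : ℝ) / (p - 1) ≤ Real.exp (1 / p + 2 / p ^ 2) := by
          calc (p : ℝ) / (p - 1) = 1 / (p - 1) + 1 := by field_simp; ring
            _ ≤ Real.exp (1 / ((p : ℝ) - 1)) := h4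
            _ ≤ _ := Real.exp_le_exp.2 h5
        rw [Real.exp_neg]
        have h7 : (0 : ℝ) < p / (p - 1) := by positivity
        calc (Real.exp (1 / (p : ℝ) + 2 / (p : ℝ) ^ 2))⁻¹ ≤ ((p : ℝ) / (p - 1))⁻¹ := inv_anti₀ h7 h6
          _ = 1 - 1 / p := by field_simp

/-- many admissible sets -/
lemma adm_ge (k H : ℕ) [DecidablePred Adm] {s : ℝ} (hMM : 2 * MM k ≤ H)
    (hs : s ≤ H / 2 * Real.exp (-RR k - 2)) (hk : 2 * (k : ℝ) ≤ s) :
    (s / 2) ^ k / k.factorial ≤ (((Pk k H).filter Adm).card : ℝ) := by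
  classical
  obtain ⟨S, hS⟩ : ∃ S : Finset ℕ, S = (Icc 1 H).filter (fun n => ∀ p ∈ ps k, ¬ QR Rs {0} p n) := ⟨_, rfl⟩
  have h1 := cntT_ge {0} (w := k) (X := H) hMM
  rw [← hS] at h1
  have h2 : s ≤ S.card := by
    have h3 : (H : ℝ) / 2 * Real.exp (-RR k - 2) ≤ H / 2 * VV (QR Rs {0}) k :=
      mul_le_mul_of_nonneg_left (VV_zero_ge k) (by positivity)
    have e : (H : ℝ) * VV (QR Rs {0}) k / 2 = H / 2 * VV (QR Rs {0}) k := by ring
    linarith
  have h3 : S.powersetCard k ⊆ (Pk k H).filter Adm := by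
    intro T hT
    rw [mem_powersetCard] at hT
    rw [mem_filter, mem_Pk]
    refine ⟨⟨fun a ha => ?_, hT.2⟩, adm_of_small hT.2 fun p hp hpk => ⟨0, fun a ha hd => ?_⟩⟩
    · have := hT.1 ha
      rw [hS, mem_filter, mem_Icc] at this
      exact this.1.2
    · have := hT.1 ha
      rw [hS, mem_filter] at this
      apply this.2 p (mem_ps.2 ⟨hp, hpk⟩)
      refine ⟨0, mem_singleton_self _, ?_⟩
      unfold Rs
      rw [add_zero]
      rwa [zero_add] at hd
  have h4 := card_le_card h3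
  rw [card_powersetCard] at h4
  have h5 : (S.card.choose k : ℝ) ≤ (((Pk k H).filter Adm).card : ℝ) := by exact_mod_cast h4
  refine le_trans ?_ h5
  refine le_trans ?_ (Nat.pow_le_choose k S.card)
  apply div_le_div_of_nonneg_right _ (by positivity)
  have hk0 : (0 : ℝ) ≤ k := Nat.cast_nonneg k
  apply pow_le_pow_left₀ (by linarith)
  have h6 : S.card ≤ (S.card + 1 - k : ℕ) + k := by omega
  have h7 : (S.card : ℝ) ≤ ((S.card + 1 - k : ℕ) : ℝ) + k := by exact_mod_cast h6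
  linarith

open Classical in
/-- the sets with a solution `n ≤ K` -/
noncomputable def SK (k H : ℕ) (K : ℝ) : Finset (Finset ℕ) :=
  (Pk k H).filter (fun T => Adm T ∧ ∃ n : ℕ, 1 ≤ n ∧ (n : ℝ) ≤ K ∧ ∀ a ∈ T, (n + a).Prime)

lemma SK_le (k H : ℕ) {K P : ℝ} (hK : 0 ≤ K) (hP : ∀ n : ℕ, ((PP H n).card : ℝ) ≤ P) :
    ((SK k H K).card : ℝ) ≤ K * (P ^ k / k.factorial) := by
  classical
  have h1 : SK k H K ⊆ (Icc 1 ⌊K⌋₊).biUnion (fun n => (PP H n).powersetCard k) := by
    intro T hT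
    unfold SK at hT
    rw [mem_filter, mem_Pk] at hT
    obtain ⟨⟨h1, h2⟩, -, n, hn1, hn2, hn3⟩ := hT
    rw [mem_biUnion]
    refine ⟨n, mem_Icc.2 ⟨hn1, Nat.le_floor hn2⟩, ?_⟩
    rw [mem_powersetCard]
    refine ⟨fun a ha => ?_, h2⟩
    unfold PP
    rw [mem_filter, mem_range]
    exact ⟨Nat.lt_succ_iff.2 (h1 a ha), hn3 a ha⟩
  have h2 : ((SK k H K).card : ℝ) ≤ ∑ n ∈ Icc 1 ⌊K⌋₊, (((PP H n).powersetCard k).card : ℝ) := by
    exact_mod_cast (card_le_card h1).trans card_biUnion_le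
  refine h2.trans ?_
  calc ∑ n ∈ Icc 1 ⌊K⌋₊, (((PP H n).powersetCard k).card : ℝ) ≤ ∑ _n ∈ Icc 1 ⌊K⌋₊, P ^ k / k.factorial := by
        apply sum_le_sum
        intro n _
        rw [card_powersetCard]
        exact choose_le _ k (hP n)
    _ = ⌊K⌋₊ * (P ^ k / k.factorial) := by
        rw [sum_const, Nat.card_Icc, nsmul_eq_mul]
        simp
    _ ≤ _ := by
        have hP0 : 0 ≤ P := (Nat.cast_nonneg _).trans (hP 0)
        exact mul_le_mul_of_nonneg_right (Nat.floor_le hK) (by positivity)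

open Classical in
theorem part3 (δ : ℝ) (hδ : 0 < δ) (hδ1 : δ < 1) : ∃ c : ℝ, 0 < c ∧ ∀ A ε : ℝ, 0 ≤ A → 0 < ε →
    ∀ᶠ x : ℕ in atTop, ∀ k : ℕ, (A + ε) * Real.log x ≤ k * Real.log (Real.log x) → (k : ℝ) ≤ c * Real.log x →
    ((SK k ⌊(x : ℝ) ^ (1 - δ)⌋₊ ((x : ℝ) ^ A)).card : ℝ) ≤
      (x : ℝ) ^ (-(ε / 2)) * (((Pk k ⌊(x : ℝ) ^ (1 - δ)⌋₊).filter Adm).card : ℝ) := by
  obtain ⟨Cb, hCb, hBT⟩ := Pool.Agent.Helper601.brun_titchmarsh
  obtain ⟨C₀, hC₀, hM⟩ := mert
  refine ⟨(1 - δ) / 8, by linarith, fun A ε hA hε => ?_⟩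
  have h1δ : 0 < 1 - δ := by linarith
  obtain ⟨G, hG⟩ : ∃ G : ℝ, G = 16 * Real.exp (C₀ + 2) := ⟨_, rfl⟩
  have hG0 : 0 < G := by rw [hG]; positivity
  obtain ⟨C₅, hC₅⟩ : ∃ C₅ : ℝ, C₅ = Cb / (1 - δ) * G := ⟨_, rfl⟩
  have hC₅0 : 0 < C₅ := by rw [hC₅]; positivity
  obtain ⟨η, hη⟩ : ∃ η : ℝ, η = (ε / 2) / (A + ε) := ⟨_, rfl⟩
  have hη0 : 0 < η := by rw [hη]; positivity
  have tN : Tendsto (fun N : ℕ => (N : ℝ)) atTop atTop := tendsto_natCast_atTop_atTop
  have tL : Tendsto (fun N : ℕ => Real.log (N : ℝ)) atTop atTop := Real.tendsto_log_atTop.comp tN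
  have tLL : Tendsto (fun N : ℕ => Real.log (Real.log (N : ℝ))) atTop atTop := Real.tendsto_log_atTop.comp tL
  have hlo : ∀ᶠ u : ℝ in atTop, Real.log u + Real.log C₅ ≤ η * u := by
    have h1 := (Real.isLittleO_log_id_atTop.def (c := η / 2) (by positivity))
    filter_upwards [h1, eventually_ge_atTop 1, eventually_ge_atTop (Real.log C₅ / (η / 2))] with u h2 h3 h4
    rw [id, Real.norm_of_nonneg (Real.log_nonneg h3), Real.norm_of_nonneg (by linarith)] at h2
    rw [div_le_iff₀ (by positivity)] at h4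
    linarith
  filter_upwards [facts δ 1 0 hδ hδ1 one_pos, tLL.eventually hlo,
    tLL.eventually_ge_atTop 2, ev_logN (ev_pow_exp 2 (1 - δ) (2 * G) h1δ),
    ev_logN (ev_pow_exp 0 ((1 - δ) / 2) 4 (by linarith)),
    tL.eventually_ge_atTop (3 / (A + ε) * 1), (Real.isLittleO_log_id_atTop.comp_tendsto tL).def (show (0:ℝ) < (A + ε) / 3 by positivity)]
    with x hF hlo hLL2 hG2 he4 hL3 hlo2
  intro k hk1 hk2
  obtain ⟨H, hH⟩ : ∃ H : ℕ, H = ⌊(x : ℝ) ^ (1 - δ)⌋₊ := ⟨_, rfl⟩
  obtain ⟨h1, -, h3⟩ := H_bounds hδ hδ1 hF hH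
  rw [← hH]
  have hL1 := hF.L0
  have e7 := hF.e7
  have hx3 := hF.x3
  have hx0n : 0 < x := by omega
  have hx0 : (0 : ℝ) < x := by exact_mod_cast hx0n
  simp only [Function.comp, id] at hlo2
  obtain ⟨L, hL⟩ : ∃ L : ℝ, L = Real.log (x : ℝ) := ⟨_, rfl⟩
  obtain ⟨LL, hLL⟩ : ∃ LL : ℝ, LL = Real.log L := ⟨_, rfl⟩
  rw [← hL] at hL1 hLL2 hk1 hk2 h1 hlo hG2 he4 hlo2 e7
  rw [← hLL] at hLL2 hk1 hlo hlo2
  have hL0 : 0 < L := by linarith
  have hLL0 : 0 < LL := by linarith
  rw [Real.norm_of_nonneg hLL0.le, Real.norm_of_nonneg hL0.le] at hlo2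
  -- `3 ≤ k`
  have hk3r : (3 : ℝ) ≤ k := by
    by_contra hcon
    push Not at hcon
    have g1 : (k : ℝ) * LL < 3 * LL := mul_lt_mul_of_pos_right hcon hLL0
    have g2 : 3 * LL ≤ (A + ε) * L := by linarith
    linarith
  have hk3 : 3 ≤ k := by exact_mod_cast hk3r
  have hkL : (k : ℝ) ≤ L := by nlinarith
  have hk0 : (0 : ℝ) < k := by linarith
  have hlk0 : 0 < Real.log (k : ℝ) := Real.log_pos (by linarith)
  have hlk : Real.log (k : ℝ) ≤ LL := by rw [hLL]; exact Real.log_le_log hk0 hkL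
  have hm := (abs_le.1 (hM k hk3)).2
  have hf : (0 : ℝ) < k.factorial := by exact_mod_cast Nat.factorial_pos k
  obtain ⟨h, hh⟩ : ∃ h : ℝ, h = (H : ℝ) + 1 := ⟨_, rfl⟩
  rw [← hh] at h1
  have hh0 : 0 < h := lt_of_lt_of_le (Real.exp_pos _) h1
  have hh16 : 16 ≤ h := by nlinarith
  -- the primes in the windows
  have hP : ∀ n : ℕ, ((PP H n).card : ℝ) ≤ Cb / (1 - δ) * h / L := by
    intro n
    have g1 := hBT n 1 (H + 1) (by
      have : (2 : ℝ) ≤ ((H + 1 : ℕ) : ℝ) := by push_cast; linarith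
      exact_mod_cast this) (Or.inl rfl)
    have g2 : (PP H n).card = ((range (H + 1)).filter (fun k => (n + k * 1).Prime)).card := by
      unfold PP
      congr 1
      apply filter_congr
      intro a _
      rw [mul_one]
    rw [g2]
    refine g1.trans ?_
    have g3 : (1 - δ) * L ≤ Real.log ((H + 1 : ℕ) : ℝ) := by
      rw [Real.le_log_iff_exp_le (by positivity)]
      push_cast
      rw [← hh]
      exact h1
    push_cast
    push_cast at g3
    rw [← hh] at g3 ⊢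
    calc Cb * h / Real.log h ≤ Cb * h / ((1 - δ) * L) :=
          div_le_div_of_nonneg_left (by positivity) (by positivity) g3
      _ = _ := by field_simp
  have hSK := SK_le k H (K := (x : ℝ) ^ A) (P := Cb / (1 - δ) * h / L) (by positivity) hP
  -- the admissible sets
  have hadm := adm_ge k H (s := 2 * (h / (G * LL))) (by
    have g1 : ((2 * MM k : ℕ) : ℝ) ≤ H := by
      push_cast
      have g2 : (MM k : ℝ) ≤ Real.exp ((1 - δ) / 2 * L) := by
        calc ((MM k : ℕ) : ℝ) ≤ ((4 ^ k : ℕ) : ℝ) := by exact_mod_cast MM_le k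
          _ = (4 : ℝ) ^ k := by push_cast; rfl
          _ ≤ (Real.exp 2) ^ k := by
              apply pow_le_pow_left₀ (by norm_num)
              have h3 := Real.exp_one_gt_d9
              have h4 : Real.exp 2 = Real.exp 1 ^ 2 := by rw [← Real.exp_nat_mul]; norm_num
              rw [h4]
              calc (4 : ℝ) ≤ 2.7182818283 ^ 2 := by norm_num
                _ ≤ _ := by gcongr
          _ = Real.exp (k * 2) := by rw [← Real.exp_nat_mul]
          _ ≤ Real.exp ((1 - δ) / 2 * L) := Real.exp_le_exp.2 (by nlinarith)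
      have g3 : Real.exp ((1 - δ) * L) = Real.exp ((1 - δ) / 2 * L) * Real.exp ((1 - δ) / 2 * L) := by
        rw [← Real.exp_add]; congr 1; ring
      rw [g3] at h1
      simp only [pow_zero, mul_one] at he4
      nlinarith
    exact_mod_cast g1) (by
    have g1 : Real.exp (-C₀ - 2) / LL ≤ Real.exp (-RR k - 2) := by
      have g2 : Real.exp (-C₀ - 2) / LL = Real.exp (-C₀ - 2 - Real.log LL) := by
        rw [Real.exp_sub _ (Real.log LL), Real.exp_log hLL0]
      rw [g2]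
      apply Real.exp_le_exp.2
      have g3 : Real.log (Real.log k) ≤ Real.log LL := Real.log_le_log hlk0 hlk
      linarith
    have g4 : 2 * (h / (G * LL)) ≤ H / 2 * (Real.exp (-C₀ - 2) / LL) := by
      have g5 : Real.exp (-C₀ - 2) = 16 / G := by
        rw [hG, show -C₀ - 2 = -(C₀ + 2) by ring, Real.exp_neg]
        field_simp
      rw [g5]
      have g6 : (H : ℝ) / 2 * (16 / G / LL) = (8 * H) / (G * LL) := by field_simp; ring
      rw [g6, ← mul_div_assoc]
      apply div_le_div_of_nonneg_right _ (by positivity)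
      linarith
    exact g4.trans (mul_le_mul_of_nonneg_left g1 (by positivity))) (by
    rw [← mul_div_assoc, le_div_iff₀ (by positivity)]
    have g1 : LL ≤ L := by
      have := Real.log_le_sub_one_of_pos hL0
      rw [← hLL] at this
      linarith
    have g2 : 2 * (k : ℝ) * (G * LL) ≤ 2 * G * L ^ 2 := by
      calc 2 * (k : ℝ) * (G * LL) = 2 * G * (k * LL) := by ring
        _ ≤ 2 * G * (L * L) := by
            apply mul_le_mul_of_nonneg_left _ (by positivity)
            exact mul_le_mul hkL g1 hLL0.le hL0.le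
        _ = _ := by ring
    linarith)
  have hadm' : (h / (G * LL)) ^ k / k.factorial ≤ (((Pk k H).filter Adm).card : ℝ) := by
    refine le_trans (le_of_eq ?_) hadm
    congr 2
    ring
  -- the comparison
  have hcmp : (x : ℝ) ^ A * ((Cb / (1 - δ) * h / L) ^ k / k.factorial) ≤
      (x : ℝ) ^ (-(ε / 2)) * ((h / (G * LL)) ^ k / k.factorial) := by
    have g1 : (Cb / (1 - δ) * h / L) = (C₅ * LL / L) * (h / (G * LL)) := by
      rw [hC₅]
      field_simp
    have g2 : (x : ℝ) ^ A * (C₅ * LL / L) ^ k ≤ (x : ℝ) ^ (-(ε / 2)) := by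
      rw [rpow_exp hx0n, rpow_exp hx0n, ← hL]
      have g3 : C₅ * LL / L = Real.exp (Real.log C₅ + Real.log LL - LL) := by
        rw [Real.exp_sub, Real.exp_add, Real.exp_log hC₅0, Real.exp_log hLL0, hLL, Real.exp_log hL0]
      rw [g3, ← Real.exp_nat_mul, ← Real.exp_add]
      apply Real.exp_le_exp.2
      have g4 : (k : ℝ) * (Real.log C₅ + Real.log LL - LL) ≤ k * (η * LL - LL) :=
        mul_le_mul_of_nonneg_left (by linarith) hk0.le
      have g5 : (1 - η) * ((A + ε) * L) ≤ (1 - η) * (k * LL) := by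
        apply mul_le_mul_of_nonneg_left hk1
        rw [hη, sub_nonneg, div_le_one (by positivity)]
        linarith
      have g6 : (1 - η) * ((A + ε) * L) = (A + ε / 2) * L := by
        have : η * (A + ε) = ε / 2 := by rw [hη]; field_simp
        linear_combination (-L) * this
      nlinarith
    rw [g1, mul_pow]
    calc (x : ℝ) ^ A * ((C₅ * LL / L) ^ k * (h / (G * LL)) ^ k / k.factorial)
        = ((x : ℝ) ^ A * (C₅ * LL / L) ^ k) * ((h / (G * LL)) ^ k / k.factorial) := by ring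
      _ ≤ _ := mul_le_mul_of_nonneg_right g2 (by positivity)
  exact hSK.trans (hcmp.trans (mul_le_mul_of_nonneg_left hadm' (by positivity)))

end Pool.Agent.V1137.UK
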